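import Pool.Agent.Lib_helper91.Coh.NumB

/-!
# Exceptional types of rank between `2` and `n - 1` do not bind: quotient side
-/

namespace CohP1.Closed

/-- The type `j = n (n - 2)`, `p = n - 1`, `e = (n-1)(n-2)`, `d < n (n - 2)`. -/
lemma caseM1 {n d k j e : ℤ} {α : ℝ} (hα : 0 < α) (hn : 3 ≤ n)
    (h : j * (n - 1 + e - j) = (n - 1) ^ 2 - 1) (hm1 : n - 1 + e - j = 1)
    (hd : (n - 1) * (n - 2) ≤ d) (hjk : j ≤ k) (hD : (n - 1) * d - e * n < 0)
    (hB : ∀ a : ℤ, 0 ≤ a → d < n * (a + 1) → (d : ℝ) + α * k < n * (a + α * (a + 1))) :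
    False := by
  have hj2 : j = n * (n - 2) := by rw [hm1] at h; linarith
  have ht1 : (n - 1) * d < (n - 1) * (n * (n - 2)) := by
    have he1 : e = (n - 1) * (n - 2) := by linarith
    rw [he1] at hD; linarith
  have ht : d < n * (n - 2) := lt_of_mul_lt_mul_left ht1 (by linarith)
  have hB1 := hB (n - 3) (by omega) (by
    have : n * (n - 3 + 1) = n * (n - 2) := by ring
    rw [this]; exact ht)
  push_cast at hB1
  have hkr : (n : ℝ) * (n - 2) ≤ k := by
    have : n * (n - 2) ≤ k := by rw [← hj2]; exact hjk
    exact_mod_cast this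
  have r1 : α * (n * (n - 2)) ≤ α * k := mul_le_mul_of_nonneg_left hkr hα.le
  have r2 : (d : ℝ) < n * (n - 3) := by linarith
  have r3 : ((n : ℝ) - 1) * (n - 2) ≤ d := by exact_mod_cast hd
  nlinarith

/-- Case: quotient side. -/
lemma conclB {n d k p e j : ℤ} {α : ℝ} (hα : 0 < α) (hk : 1 ≤ k)
    (hp : 2 ≤ p) (hpn : p < n) (he : 0 ≤ e) (hj : 0 ≤ j)
    (h : j * (p + e - j) = p ^ 2 - 1) (hd : (n - 1) * (n - 2) ≤ d)
    (hq : n ^ 2 - k * (n + d - k) ≤ 1) (hjk : j ≤ k)
    (hA : ∀ a : ℤ, 0 ≤ a → a * n < n + d → (a : ℝ) * n < d + α * k)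
    (hB : ∀ a : ℤ, 0 ≤ a → d < n * (a + 1) → (d : ℝ) + α * k < n * (a + α * (a + 1)))
    (hC : ∀ a : ℤ, 0 ≤ a → d < (n - k) * (1 + a) → (d : ℝ) + α * k < n * a)
    (hle : ((e : ℝ) + α * j) * n ≤ (d + α * k) * p) :
    n * p - k * (p + e - j) + (n * e - d * p) ≤ 0 := by
  obtain ⟨h1, h2⟩ := real_pos hp he hj h
  have key := idB (n := n) (d := d) (k := k) h
  have hele := real_e_le hp he hj h
  by_contra hc
  push Not at hc
  have hpos : p ≤ p * (n * p - k * (p + e - j) + (n * e - d * p)) := by nlinarith
  rw [key] at hpos
  have hDK : 0 ≤ ((p * d - e * n : ℤ) : ℝ) + α * ((p * k - j * n : ℤ) : ℝ) := by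
    push_cast; linarith
  rcases lt_or_ge (p * d - e * n) 0 with hD | hD
  · -- D < 0
    obtain ⟨hpn1, hc12⟩ := lemW hp hpn he hj h hd hD.le
    subst hpn1
    rcases hc12 with hj1 | hm1
    · subst hj1
      have he1 : e = (n - 1) * (n - 2) := by linarith
      subst he1
      have ht1 : (n - 1) * d < (n - 1) * (n * (n - 2)) := by linarith
      have ht : d < n * (n - 2) := lt_of_mul_lt_mul_left ht1 (by linarith)
      have hd3 : n * (n - 2) - d ≤ n - 2 := by linarith
      have hD' : (((n - 1) * d - (n - 1) * (n - 2) * n : ℤ) : ℝ) < 0 := by exact_mod_cast hD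
      have hK : 0 < (n - 1) * k - 1 * n := by
        by_contra hcon
        push Not at hcon
        have : (((n - 1) * k - 1 * n : ℤ) : ℝ) ≤ 0 := by exact_mod_cast hcon
        have := mul_nonpos_of_nonneg_of_nonpos hα.le this
        linarith
      have hk2 : 2 ≤ k := by
        by_contra hcon
        have : k = 1 := by omega
        subst this
        linarith
      -- c : 0 < n(n-1) - k n (n-2) + (n-1) t
      have hc' : 0 < n * (n - 1) - k * (n * (n - 2)) + (n - 1) * (n * (n - 2) - d) := by
        linarith
      have hc3 : (n - 1) * (n * (n - 2) - d) ≤ (n - 1) * (n - 2) :=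
        mul_le_mul_of_nonneg_left hd3 (by linarith)
      have hnn : 0 < n * (n - 2) := by nlinarith
      have hk3 : k = 2 := by
        by_contra hcon
        have hk3 : 3 ≤ k := by omega
        have := mul_le_mul_of_nonneg_right hk3 hnn.le
        nlinarith
      subst hk3
      have hd4 : d = (n - 1) * (n - 2) := by
        by_contra hcon
        have : n * (n - 2) - d ≤ n - 3 := by
          have : (n - 1) * (n - 2) < d := lt_of_le_of_ne hd (Ne.symm hcon)
          have : (n - 1) * (n - 2) + 1 ≤ d := this
          linarith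
        have := mul_le_mul_of_nonneg_left this (by linarith : 0 ≤ n - 1)
        nlinarith
      subst hd4
      have hC1 := hC (n - 1) (by omega) (by nlinarith)
      push_cast at hC1 hDK
      have hn2 : (0 : ℝ) < n - 2 := by
        have : (0 : ℤ) < n - 2 := by omega
        exact_mod_cast this
      have r1 : α < n - 1 := by linarith
      have r2 : α * (n - 2) < (n - 1) * (n - 2) := mul_lt_mul_of_pos_right r1 hn2
      linarith
    · exact caseM1 hα (by omega) h hm1 hd hjk hD hB
  · rcases le_or_gt 0 (p * k - j * n) with hK | hK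
    · -- D ≥ 0, K ≥ 0
      have hm0 : 0 ≤ (p + e - j) * (p * k - j * n) := mul_nonneg (by linarith) hK
      rcases hD.lt_or_eq with hD1 | hD0
      · have hD1' : 1 ≤ p * d - e * n := hD1
        have g1 : p * 1 ≤ p * (p * d - e * n) := mul_le_mul_of_nonneg_left hD1' (by linarith)
        have g2 : 2 * p ≤ n := by linarith
        have g3 : p * (p * d - e * n) ≤ n - p := by linarith
        have g4 : e * n ≤ p * (p - 1) * n := mul_le_mul_of_nonneg_right hele (by linarith)
        have g5 : p * (p * (d - (p - 1) * n)) ≤ n - p := by nlinarith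
        -- d - (p-1) n ≥ (n-1)(n-2) - n (n-2)/2
        have g6 : 2 * ((n - 1) * (n - 2)) - n * (n - 2) ≤ 2 * (d - (p - 1) * n) := by
          have : 2 * ((p - 1) * n) ≤ n * (n - 2) := by nlinarith
          linarith
        have g7 : (n - 2) * (n - 2) ≤ 2 * (d - (p - 1) * n) := by linarith
        have g8 : 0 ≤ (n - 2) * (n - 2) := mul_self_nonneg _
        have g9 : 2 * (2 * (2 * (d - (p - 1) * n))) ≤ p * (p * (2 * (d - (p - 1) * n))) := by
          have g90 : 0 ≤ 2 * (d - (p - 1) * n) := by linarith
          calc 2 * (2 * (2 * (d - (p - 1) * n))) ≤ p * (2 * (2 * (d - (p - 1) * n))) :=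
                mul_le_mul_of_nonneg_right hp (by linarith)
            _ ≤ p * (p * (2 * (d - (p - 1) * n))) :=
                mul_le_mul_of_nonneg_left (mul_le_mul_of_nonneg_right hp g90) (by linarith)
        nlinarith
      · have hD0' : p * d - e * n = 0 := hD0.symm
        rcases hK.lt_or_eq with hK1 | hK0
        · obtain ⟨hpn1, hc12⟩ := lemW hp hpn he hj h hd hD0'.le
          subst hpn1
          rw [hD0'] at hpos
          have hK1' : 1 ≤ (n - 1) * k - j * n := hK1
          have g1 : 1 * ((n - 1) * k - j * n) ≤ (n - 1 + e - j) * ((n - 1) * k - j * n) :=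
            mul_le_mul_of_nonneg_right h2 hK
          have g2 : (n - 1) * k - j * n = 1 := by linarith
          have g3 : (n - 1 + e - j) = 1 := by rw [g2] at hpos; linarith
          have hj2 : j = n * (n - 2) := by rw [g3] at h; linarith
          have he1 : e = (n - 1) * (n - 2) := by linarith
          have hd1 : d = n * (n - 2) := by
            have : (n - 1) * d = (n - 1) * (n * (n - 2)) := by rw [he1] at hD0'; linarith
            exact mul_left_cancel₀ (by linarith : n - 1 ≠ 0) this
          have hk1 : k = n ^ 2 - n - 1 := by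
            have : (n - 1) * k = (n - 1) * (n ^ 2 - n - 1) := by rw [hj2] at g2; linarith
            exact mul_left_cancel₀ (by linarith : n - 1 ≠ 0) this
          rw [hk1, hd1] at hq
          nlinarith
        · exact not_prop hp hpn h hq hD0' hK0.symm
    · -- D ≥ 0, K < 0
      have hK' : ((p * k - j * n : ℤ) : ℝ) < 0 := by exact_mod_cast hK
      have hαK : α * ((p * k - j * n : ℤ) : ℝ) < 0 := mul_neg_of_pos_of_neg hα hK'
      have hD1 : (0 : ℝ) < ((p * d - e * n : ℤ) : ℝ) := by linarith
      have hD2 : 0 < p * d - e * n := by exact_mod_cast hD1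
      have hc1 : p * d ≤ n * (p + e) - k * (p + e - j) - 1 := by linarith
      have hpd : p * ((n - 1) * (n - 2)) ≤ p * d := mul_le_mul_of_nonneg_left hd (by linarith)
      have hkm : 1 * 1 ≤ k * (p + e - j) := mul_le_mul hk h2 (by linarith) (by linarith)
      have hp2 : n - 2 ≤ p := by
        have a1 : p * ((n - 1) * (n - 2)) < n * (p + e) := by linarith
        have a2 : n * (p + e) ≤ n * (p * p) := mul_le_mul_of_nonneg_left (by linarith) (by linarith)
        have a3 : p * ((n - 1) * (n - 2)) < p * (n * p) := by linarith
        have a4 : (n - 1) * (n - 2) < n * p := lt_of_mul_lt_mul_left a3 (by linarith)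
        by_contra hcon
        push Not at hcon
        have : p ≤ n - 3 := by omega
        nlinarith
      rcases eq_or_lt_of_le h1 with hj1 | hj1
      · -- j = 1
        have hj1' : j = 1 := hj1.symm
        subst hj1'
        have hk1 : k = 1 := by
          by_contra hcon
          have hk2 : 2 ≤ k := by omega
          have a1 : p * 2 ≤ p * k := mul_le_mul_of_nonneg_left hk2 (by linarith)
          have a2 : n ≤ 3 := by linarith
          have a3 : n = 3 := by omega
          subst a3
          linarith
        subst hk1
        have he1 : e = p ^ 2 - p := by linarith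
        subst he1
        have a1 : n ^ 2 - n ≤ d := by linarith
        have a2 : p * (n ^ 2 - n) ≤ p * d := mul_le_mul_of_nonneg_left a1 (by linarith)
        have a3 : p * (n ^ 2 - n) ≤ p * (p * (n - 1)) := by linarith
        have a4 : n ^ 2 - n ≤ p * (n - 1) := le_of_mul_le_mul_left a3 (by linarith)
        nlinarith
      · rcases eq_or_lt_of_le h2 with hm1 | hm1
        · -- m' = 1
          have hm1' : p + e - j = 1 := hm1.symm
          have hj2 : j = p ^ 2 - 1 := by rw [hm1'] at h; linarith
          have he1 : e = p ^ 2 - p := by linarith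
          subst hj2 he1
          -- d > (p-1) n
          have b1 : p * ((p - 1) * n) < p * d := by linarith
          have b2 : (p - 1) * n < d := lt_of_mul_lt_mul_left b1 (by linarith)
          have b3 : p * (n - 1) ≤ d := by
            rcases eq_or_lt_of_le hp2 with hp3 | hp3
            · rw [← hp3]; linarith
            · have : p = n - 1 := by omega
              subst this
              linarith
          have hA1 := hA p (by linarith) (by linarith)
          have hα1 : ((p : ℝ) * n - d) < α * k := by linarith
          -- k ≤ p (n - r) - 1, r = d - (p-1) n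
          have b4 : k ≤ p * (n * p - d) - 1 := by
            rw [hm1'] at hc1
            linarith
          have hn0 : (0 : ℝ) < n := by exact_mod_cast (by omega : (0 : ℤ) < n)
          have hp0 : (0 : ℝ) < p := by exact_mod_cast (by omega : (0 : ℤ) < p)
          have hk0 : (0 : ℝ) < k := by exact_mod_cast (by omega : (0 : ℤ) < k)
          push_cast at hDK hK'
          have c1 : (k : ℝ) ≤ p * (n * p - d) - 1 := by exact_mod_cast b4
          have c2 : (p : ℝ) * (n - 1) ≤ d := by exact_mod_cast b3
          have c3 : (0 : ℝ) < (p ^ 2 - 1) * n - p * k := by linarith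
          have c4 : ((p : ℝ) * n - d) * ((p ^ 2 - 1) * n - p * k) <
              α * k * ((p ^ 2 - 1) * n - p * k) := mul_lt_mul_of_pos_right hα1 c3
          have c5 : α * ((p ^ 2 - 1) * n - p * k) * k ≤ (p * d - (p ^ 2 - p) * n) * k :=
            mul_le_mul_of_nonneg_right (by linarith) hk0.le
          have c6 : (((p : ℝ) * n - d) * (p ^ 2 - 1)) * n < (p * k) * n := by linarith
          have c7 : ((p : ℝ) * n - d) * (p ^ 2 - 1) < p * k := lt_of_mul_lt_mul_right c6 hn0.le
          have c8 : (p : ℝ) * k ≤ p * (p * (n * p - d) - 1) := mul_le_mul_of_nonneg_left c1 hp0.le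
          linarith
        · -- j, m' ≥ 2
          have g1 : 2 ≤ j := hj1
          have g2 : 2 ≤ p + e - j := hm1
          have g3 : 0 ≤ (j - 2) * (p + e - j - 2) := mul_nonneg (by linarith) (by linarith)
          have g4 : 2 * (p + e) ≤ p ^ 2 + 3 := by linarith
          have g5 : 1 * 2 ≤ k * (p + e - j) := mul_le_mul hk g2 (by linarith) (by linarith)
          have g6 : 2 * (p * ((n - 1) * (n - 2))) ≤ n * (p ^ 2 + 3) - 6 := by
            have : n * (2 * (p + e)) ≤ n * (p ^ 2 + 3) := mul_le_mul_of_nonneg_left g4 (by linarith)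
            linarith
          rcases eq_or_lt_of_le hp2 with hp3 | hp3
          · exfalso
            subst hp3
            have hn4 : 4 ≤ n := by omega
            nlinarith [mul_nonneg (sub_nonneg.2 hn4) (mul_nonneg (sub_nonneg.2 hn4) (sub_nonneg.2 hn4)), mul_nonneg (sub_nonneg.2 hn4) (sub_nonneg.2 hn4)]
          · have hp4 : p = n - 1 := by omega
            subst hp4
            have hn5 : n ≤ 4 := by
              by_contra hcon
              have hn5 : 5 ≤ n := by omega
              nlinarith [mul_nonneg (sub_nonneg.2 hn5) (mul_nonneg (sub_nonneg.2 hn5) (sub_nonneg.2 hn5)), mul_nonneg (sub_nonneg.2 hn5) (sub_nonneg.2 hn5)]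
            have hn3 : 3 ≤ n := by omega
            have hn4 : n = 4 := by
              by_contra hcon
              have : n = 3 := by omega
              subst this
              nlinarith
            subst hn4
            -- p = 3, j * (3 + e - j) = 8, e ≤ 3
            have he3 : e ≤ 3 := by linarith
            have hj5 : j ≤ 4 := by nlinarith
            have : e = 3 ∧ (j = 2 ∨ j = 4) := by
              interval_cases j <;> interval_cases e <;> simp_all
            obtain ⟨rfl, hj6⟩ := this
            rcases hj6 with rfl | rfl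
            · have : k = 1 := by omega
              subst this
              omega
            · omega

end CohP1.Closed
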