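import Pool.Agent.Lib_helper87.Coh.AdmDef
import Pool.Agent.Lib_helper91.Coh.NumC

/-!
# Admissibility for `d ≥ (n - 1) (n - 2)`: only the types of rank one matter
-/

namespace CohP1.Closed

open CohP1

lemma slope_le_iff' {α : ℝ} {n n' : ℕ} {d d' k k' : ℕ} (hn : 1 ≤ n) (hn' : 1 ≤ n') :
    slope α n d k ≤ slope α n' d' k' ↔
      ((d : ℝ) + α * k) * n' ≤ ((d' : ℝ) + α * k') * n := by
  have h1 : (0 : ℝ) < n := by exact_mod_cast hn
  have h2 : (0 : ℝ) < n' := by exact_mod_cast hn'
  have e1 : slope α n d k = ((d : ℝ) + α * k) / n := by
    simp only [slope, Int.cast_natCast]; ring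
  have e2 : slope α n' d' k' = ((d' : ℝ) + α * k') / n' := by
    simp only [slope, Int.cast_natCast]; ring
  rw [e1, e2, div_le_div_iff₀ h1 h2]

lemma euler_self (n d k : ℕ) :
    euler n d k n d k = (n : ℤ) ^ 2 - k * ((n : ℤ) + d - k) := by
  simp only [euler]; ring

lemma real_iff (n d k : ℕ) :
    euler n d k n d k = 1 ↔ (k : ℤ) * ((n : ℤ) + d - k) = (n : ℤ) ^ 2 - 1 := by
  rw [euler_self]
  constructor <;> intro h <;> linarith

lemma euler_line1 (a : ℕ) : euler 1 a (a + 1) 1 a (a + 1) = 1 := by
  simp only [euler]; push_cast; ring

lemma rank_one {a k : ℕ} (h : euler 1 a k 1 a k = 1) : k = 0 ∨ k = a + 1 := by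
  rw [real_iff] at h
  push_cast at h
  have h1 : (k : ℤ) * (1 + a - k) = 0 := by linarith
  rcases mul_eq_zero.1 h1 with h' | h'
  · left; exact_mod_cast h'
  · right; omega

/-- `(𝒪(a), 0)` is admissible. -/
lemma adm_line0 {α : ℝ} (a : ℕ) : Adm α 1 a 0 := by
  rw [Adm]
  refine ⟨by simp [euler], by simp [euler], ?_⟩
  intro n' d' k' h1 h2 h3 h4 h5 h6 _
  have hk : k' = 0 := by omega
  subst hk
  rw [real_iff] at h6
  have hn : n' = 1 := by
    have : (n' : ℤ) ^ 2 = 1 := by push_cast at h6; linarith
    have h7 : (n' : ℤ) * n' = 1 * 1 := by linarith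
    have h8 : n' * n' = 1 := by exact_mod_cast h7
    exact Nat.eq_one_of_mul_eq_one_right h8
  subst hn
  have hd : d' < a := by
    rcases h3.lt_or_eq with h | h
    · exact h
    · subst h; exact absurd rfl h5
  constructor
  · intro hs
    rw [slope_le_iff' le_rfl le_rfl] at hs
    push_cast at hs
    have : (a : ℝ) ≤ d' := by linarith
    have : a ≤ d' := by exact_mod_cast this
    omega
  · intro _
    simp only [euler]
    push_cast
    omega

/-- `(𝒪(a), H⁰(𝒪(a)))` is admissible. -/
lemma adm_line1 {α : ℝ} (hα : 0 < α) (a : ℕ) : Adm α 1 a (a + 1) := by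
  rw [Adm]
  rw [euler_line1]
  refine ⟨le_rfl, by norm_num, ?_⟩
  intro n' d' k' h1 h2 h3 h4 h5 h6 _
  rcases Nat.lt_or_ge 1 n' with hn | hn
  · -- rank at least two
    have h6' := (real_iff _ _ _).1 h6
    obtain ⟨g1, g2⟩ := trivial_ge (n := 1) (d := a) (k := a + 1) (p := n') (e := d') (j := k') hα
      le_rfl (by omega) (by omega) (by omega) (by omega) (by omega) h6' (by omega) (by omega)
      (by omega) (by omega)
    constructor
    · intro hs
      rw [slope_le_iff' le_rfl h1] at hs
      push_cast at hs g1
      exact absurd hs g1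
    · intro _
      simp only [euler]
      push_cast at g2 ⊢
      exact g2
  · have hn1 : n' = 1 := by omega
    subst hn1
    rcases rank_one h6 with h7 | h7
    · subst h7
      constructor
      · intro hs
        rw [slope_le_iff' le_rfl le_rfl] at hs
        push_cast at hs
        have e1 : (d' : ℝ) ≤ a := by exact_mod_cast h3
        have e2 : (0 : ℝ) ≤ a := by positivity
        have e3 : 0 < α * ((a : ℝ) + 1) := by positivity
        linarith
      · intro _
        simp only [euler]
        push_cast
        nlinarith
    · subst h7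
      have hd : d' < a := by
        rcases h3.lt_or_eq with h | h
        · exact h
        · subst h; exact absurd rfl h5
      constructor
      · intro hs
        rw [slope_le_iff' le_rfl le_rfl] at hs
        push_cast at hs
        have e1 : (d' : ℝ) + 1 ≤ a := by exact_mod_cast hd
        have e3 : α * ((d' : ℝ) + 1) ≤ α * (a + 1) :=
          mul_le_mul_of_nonneg_left (by linarith) hα.le
        linarith
      · intro _
        simp only [euler]
        push_cast
        nlinarith

/-- The conditions from the types of rank one. -/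
structure LB (α : ℝ) (n d k : ℤ) : Prop where
  A : ∀ a : ℤ, 0 ≤ a → a * n < n + d → (a : ℝ) * n < d + α * k
  B : ∀ a : ℤ, 0 ≤ a → d < n * (a + 1) → (d : ℝ) + α * k < n * (a + α * (a + 1))
  C : ∀ a : ℤ, 0 ≤ a → d < (n - k) * (1 + a) → (d : ℝ) + α * k < n * a
  D : ∀ a : ℤ, 0 ≤ a → (a + 1) * (2 * n + d - k) < 2 * n + d → (n : ℝ) * (a + α * (a + 1)) < d + α * k

lemma LB.of_adm {α : ℝ} (hα : 0 < α) {n d k : ℕ} (hn : 2 ≤ n) (hk : 1 ≤ k) (h : Adm α n d k) :
    LB α n d k := by
  rw [Adm] at h
  obtain ⟨hq, -, hc⟩ := h
  have hn1 : 1 ≤ n := by omega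
  have hn0 : (0 : ℝ) < n := by exact_mod_cast hn1
  have hk0 : (0 : ℝ) < k := by exact_mod_cast hk
  have hA : ∀ a : ℤ, 0 ≤ a → a * (n : ℤ) < (n : ℤ) + (d : ℤ) →
      (a : ℝ) * (n : ℤ) < (d : ℤ) + α * (k : ℤ) := by
    intro a ha hlt
    lift a to ℕ using ha
    have had : a ≤ d := by
      by_contra hcon
      push Not at hcon
      have : (d : ℤ) + 1 ≤ a := by exact_mod_cast hcon
      nlinarith
    have := (hc 1 a 0 le_rfl (by omega) had (by omega) (by
      intro he; simp only [Prod.mk.injEq] at he; omega) (by simp [euler]) (adm_line0 a)).1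
    by_contra hcon
    push Not at hcon
    have h2 := this (by
      rw [slope_le_iff' hn1 le_rfl]
      push_cast at hcon ⊢
      linarith)
    simp only [euler] at h2
    push_cast at h2
    nlinarith
  have hC : ∀ a : ℤ, 0 ≤ a → (d : ℤ) < ((n : ℤ) - k) * (1 + a) →
      ((d : ℤ) : ℝ) + α * (k : ℤ) < (n : ℤ) * a := by
    have hC0 : ∀ a : ℕ, a ≤ d → (d : ℤ) < ((n : ℤ) - k) * (1 + a) →
        (d : ℝ) + α * k < n * a := by
      intro a had hlt
      have := (hc 1 a 0 le_rfl (by omega) had (by omega) (by
        intro he; simp only [Prod.mk.injEq] at he; omega) (by simp [euler]) (adm_line0 a)).2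
      by_contra hcon
      push Not at hcon
      have h2 := this (by
        rw [slope_le_iff' le_rfl hn1]
        push_cast
        linarith)
      simp only [euler] at h2
      push_cast at h2
      nlinarith
    intro a ha hlt
    lift a to ℕ using ha
    have hnk : 1 ≤ (n : ℤ) - k := by
      by_contra hcon
      push Not at hcon
      have : ((n : ℤ) - k) * (1 + a) ≤ 0 := mul_nonpos_of_nonpos_of_nonneg (by omega) (by positivity)
      omega
    push_cast
    rcases le_or_gt a d with had | had
    · exact hC0 a had hlt
    · have h1 := hC0 d le_rfl (by nlinarith)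
      have h2 : (d : ℝ) ≤ a := by exact_mod_cast had.le
      have h3 : (n : ℝ) * d ≤ n * a := mul_le_mul_of_nonneg_left h2 hn0.le
      linarith
  have hqm : 1 ≤ (n : ℤ) + d - k := by
    by_contra hcon
    push Not at hcon
    rw [euler_self] at hq
    have h1 : (k : ℤ) * ((n : ℤ) + d - k) ≤ 0 :=
      mul_nonpos_of_nonneg_of_nonpos (by positivity) (by omega)
    have h2 : (2 : ℤ) ≤ n := by exact_mod_cast hn
    nlinarith
  have hD : ∀ a : ℤ, 0 ≤ a → (a + 1) * (2 * (n : ℤ) + d - k) < 2 * (n : ℤ) + d →
      ((n : ℤ) : ℝ) * (a + α * (a + 1)) < (d : ℤ) + α * (k : ℤ) := by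
    intro a ha hlt
    lift a to ℕ using ha
    have h2n : (2 : ℤ) ≤ n := by exact_mod_cast hn
    have hak : a + 1 ≤ k := by
      by_contra hcon
      push Not at hcon
      have h3 : (k : ℤ) ≤ a := by exact_mod_cast (by omega : k ≤ a)
      nlinarith
    have had : a ≤ d := by
      by_contra hcon
      push Not at hcon
      have h3 : (d : ℤ) + 1 ≤ a := by exact_mod_cast hcon
      have h4 : ((d : ℤ) + 1) * (2 * n + d - k) ≤ a * (2 * n + d - k) :=
        mul_le_mul_of_nonneg_right h3 (by omega)
      nlinarith
    have := (hc 1 a (a + 1) le_rfl hak had (by omega) (by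
      intro he; simp only [Prod.mk.injEq] at he; omega) (euler_line1 a) (adm_line1 hα a)).1
    by_contra hcon
    push Not at hcon
    have h2 := this (by
      rw [slope_le_iff' hn1 le_rfl]
      push_cast at hcon ⊢
      linarith)
    simp only [euler] at h2
    push_cast at h2
    nlinarith
  refine ⟨hA, ?_, hC, hD⟩
  -- B
  obtain ⟨q, hqd⟩ : ∃ q, q = d / n := ⟨_, rfl⟩
  have hq1 : n * q ≤ d := by rw [hqd]; exact Nat.mul_div_le d n
  have hq2 : d < n * (q + 1) := by
    rw [hqd]; exact Nat.lt_mul_div_succ d hn1
  have hB0 : (d : ℝ) + α * k < n * (q + α * (q + 1)) := by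
    rcases Nat.lt_or_ge q k with hqk | hqk
    · have hqd' : q ≤ d := by nlinarith
      have := (hc 1 q (q + 1) le_rfl (by omega) hqd' (by omega) (by
        intro he; simp only [Prod.mk.injEq] at he; omega) (euler_line1 q)
        (adm_line1 hα q)).2
      by_contra hcon
      push Not at hcon
      have h2 := this (by
        rw [slope_le_iff' le_rfl hn1]
        push_cast
        linarith)
      simp only [euler] at h2
      push_cast at h2
      have h3 : (d : ℤ) < n * (q + 1) := by exact_mod_cast hq2
      nlinarith
    · -- k ≤ q
      have r1 : (k : ℝ) ≤ q := by exact_mod_cast hqk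
      have r2 : (n : ℝ) * q ≤ d := by exact_mod_cast hq1
      have r2n : (2 : ℝ) ≤ n := by exact_mod_cast hn
      have r3 : α * k ≤ α * q := mul_le_mul_of_nonneg_left r1 hα.le
      rcases hq1.lt_or_eq with hlt | heq
      · have h4 := hA (q + 1) (by positivity) (by
          have : (n : ℤ) * q < d := by exact_mod_cast hlt
          linarith)
        push_cast at h4
        have r4 : (d : ℝ) + 1 ≤ n * (q + 1) := by exact_mod_cast hq2
        have r5 : (1 : ℝ) < α * k := by linarith
        have r6 : (n - 1) * (1 : ℝ) ≤ (n - 1) * (α * k) :=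
          mul_le_mul_of_nonneg_left r5.le (by linarith)
        have r7 : (n : ℝ) * (α * k) ≤ n * (α * q) := mul_le_mul_of_nonneg_left r3 hn0.le
        have r8 : 0 < (n : ℝ) * α := by positivity
        linarith
      · have r4 : (d : ℝ) = n * q := by exact_mod_cast heq.symm
        have r5 : (1 : ℝ) * (α * q) ≤ n * (α * q) :=
          mul_le_mul_of_nonneg_right (by linarith) (by positivity)
        have r6 : 0 < (n : ℝ) * α := by positivity
        linarith
  intro a ha hlt
  lift a to ℕ using ha
  have haq : q ≤ a := by
    by_contra hcon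
    push Not at hcon
    have h1 : a + 1 ≤ q := hcon
    have h2 : n * (a + 1) ≤ n * q := Nat.mul_le_mul_left _ h1
    have h3 : d < n * (a + 1) := by exact_mod_cast hlt
    omega
  have r1 : (q : ℝ) ≤ a := by exact_mod_cast haq
  have r2 : α * (q : ℝ) ≤ α * a := mul_le_mul_of_nonneg_left r1 hα.le
  have r3 : (n : ℝ) * (q + α * (q + 1)) ≤ n * (a + α * (a + 1)) :=
    mul_le_mul_of_nonneg_left (by linarith) hn0.le
  push_cast
  linarith

/-- For `d ≥ (n - 1) (n - 2)` only the types of rank one matter. -/
theorem adm_iff {α : ℝ} (hα : 0 < α) {n d k : ℕ} (hn : 2 ≤ n) (hk : 1 ≤ k)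
    (hd : ((n : ℤ) - 1) * (n - 2) ≤ d) :
    Adm α n d k ↔ (n : ℤ) ^ 2 - k * ((n : ℤ) + d - k) ≤ 1 ∧
      ((n : ℤ) ^ 2 - k * ((n : ℤ) + d - k) = 0 → Nat.gcd n (Nat.gcd d k) = 1) ∧ LB α n d k := by
  constructor
  · intro h
    have hLB := LB.of_adm hα hn hk h
    rw [Adm, euler_self] at h
    exact ⟨h.1, h.2.1, hLB⟩
  · rintro ⟨hq, hg, hLB⟩
    rw [Adm, euler_self]
    refine ⟨hq, hg, ?_⟩
    intro n' d' k' h1 h2 h3 h4 h5 h6 h7
    have hn1 : 1 ≤ n := by omega
    have h6' := (real_iff _ _ _).1 h6
    rcases Nat.lt_or_ge 1 n' with hn' | hn'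
    · have hk' : 1 ≤ k' := by
        have := (real_pos (p := n') (e := d') (j := k') (by omega) (by omega) (by omega) h6').1
        exact_mod_cast this
      rcases Nat.lt_or_ge n' n with hlt | hge
      · constructor
        · intro hs
          rw [slope_le_iff' hn1 h1] at hs
          have := conclA (n := n) (d := d) (k := k) (p := n') (e := d') (j := k') hα (by omega)
            (by omega) (by omega) (by omega) (by omega) h6' hd hq (by omega) hLB.A hLB.B
            (LB.of_adm hα hn' hk' h7).C (by push_cast; exact hs)
          simp only [euler]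
          push_cast at this ⊢
          exact this
        · intro hs
          rw [slope_le_iff' h1 hn1] at hs
          have := conclB (n := n) (d := d) (k := k) (p := n') (e := d') (j := k') hα (by omega)
            (by omega) (by omega) (by omega) (by omega) h6' hd hq (by omega) hLB.A hLB.B
            hLB.C (by push_cast; exact hs)
          simp only [euler]
          push_cast at this ⊢
          exact this
      · obtain ⟨g1, g2⟩ := trivial_ge (n := n) (d := d) (k := k) (p := n') (e := d') (j := k') hα
          (by omega) (by omega) (by omega) (by omega) (by omega) (by omega) h6' (by omega)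
          (by omega) (by omega) (by
            rintro ⟨e1, e2, e3⟩
            apply h5
            have e1' : n' = n := by exact_mod_cast e1
            have e2' : d' = d := by exact_mod_cast e2
            have e3' : k' = k := by exact_mod_cast e3
            rw [e1', e2', e3'])
        constructor
        · intro hs
          rw [slope_le_iff' hn1 h1] at hs
          push_cast at g1
          exact absurd hs g1
        · intro _
          simp only [euler]
          exact g2
    · have hn1' : n' = 1 := by omega
      subst hn1'
      rcases rank_one h6 with h8 | h8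
      · subst h8
        constructor
        · intro hs
          rw [slope_le_iff' hn1 le_rfl] at hs
          by_contra hcon
          push Not at hcon
          simp only [euler] at hcon
          push_cast at hcon
          have := hLB.A d' (by positivity) (by linarith)
          push_cast at this hs
          linarith
        · intro hs
          rw [slope_le_iff' le_rfl hn1] at hs
          by_contra hcon
          push Not at hcon
          simp only [euler] at hcon
          push_cast at hcon
          have := hLB.C d' (by positivity) (by linarith)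
          push_cast at this hs
          linarith
      · subst h8
        constructor
        · intro hs
          rw [slope_le_iff' hn1 le_rfl] at hs
          by_contra hcon
          push Not at hcon
          simp only [euler] at hcon
          push_cast at hcon
          have := hLB.D d' (by positivity) (by linarith)
          push_cast at this hs
          linarith
        · intro hs
          rw [slope_le_iff' le_rfl hn1] at hs
          by_contra hcon
          push Not at hcon
          simp only [euler] at hcon
          push_cast at hcon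
          have := hLB.B d' (by positivity) (by linarith)
          push_cast at this hs
          linarith

end CohP1.Closed
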