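import Mathlib

/-!
# Closed formulas for the stability intervals
-/

namespace CohP1

/-- The lower end
`max ((n ⌈d/n⌉ - d) / k, (d - n ⌊d/n⌋) / (n (⌊d/n⌋ + 1) - k))`. -/
noncomputable def lowerEnd (n : ℕ) (d : ℤ) (k : ℕ) : ℝ :=
  max ((n * ⌈(d : ℝ) / n⌉ - d) / k) ((d - n * ⌊(d : ℝ) / n⌋) / (n * (⌊(d : ℝ) / n⌋ + 1) - k))

/-- The upper end `(n ⌊d/(n-k)⌋ - d) / k` for `k < n`. -/
noncomputable def upperEnd (n : ℕ) (d : ℤ) (k : ℕ) : ℝ :=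
  (n * ⌊(d : ℝ) / (n - k)⌋ - d) / k

/-- The closed formula: the open interval from `lowerEnd` to `upperEnd` for `k < n`; for `k ≥ n`
the interval `(lowerEnd, ∞)` if `k < n (⌊d/n⌋ + 1)` and `k (⌊d/n⌋ + 1) ≤ ⌊d/n⌋ (2 n + d)`, and
empty otherwise. -/
noncomputable def closedForm (n : ℕ) (d : ℤ) (k : ℕ) : Set ℝ :=
  if k < n then Set.Ioo (lowerEnd n d k) (upperEnd n d k)
  else if (k : ℤ) < n * (⌊(d : ℝ) / n⌋ + 1) ∧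
      k * (⌊(d : ℝ) / n⌋ + 1) ≤ ⌊(d : ℝ) / n⌋ * (2 * n + d) then Set.Ioi (lowerEnd n d k)
  else ∅

end CohP1
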