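import Mathlib

/-!
# The bound on the Euler form follows from the other conditions
-/

namespace CohP1.Closed

lemma q_small {n d k c : ℤ} (hk : 1 ≤ k) (hkn : k < n) (hc1 : (c - 1) * n < d) (hc2 : d ≤ c * n)
    (hc3 : (c + 1) * (n - k) ≤ d) (hd0 : 0 ≤ d) (hd : (n - 1) * (n - 2) ≤ d ∨ n ≤ 3)
    (h322 : ¬ (n = 3 ∧ d = 2 ∧ k = 2)) :
    n ^ 2 - k * (n + d - k) ≤ 1 ∧
      (n ^ 2 - k * (n + d - k) = 0 → k = 1 ∨ (n = 4 ∧ d = 6 ∧ k = 2)) := by
  rcases le_or_gt n 3 with hn3 | hn3
  · have hn2 : 2 ≤ n := by omega
    interval_cases n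
    · have : k = 1 := by omega
      subst this
      constructor <;> omega
    · interval_cases k
      · constructor <;> omega
      · constructor <;> omega
  · have hd' : (n - 1) * (n - 2) ≤ d := by
      rcases hd with h | h
      · exact h
      · omega
    obtain ⟨t, ht⟩ : ∃ t, t = c * n - d := ⟨_, rfl⟩
    have ht0 : 0 ≤ t := by linarith
    have htn : t < n := by linarith
    have hdt : d = c * n - t := by linarith
    have h1 : n + t ≤ k * (c + 1) := by linarith
    have hcn : n - 2 ≤ c := by
      by_contra hcon
      have : c ≤ n - 3 := by omega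
      nlinarith
    subst hdt
    have hq : n ^ 2 - k * (n + (c * n - t) - k) = n ^ 2 - n * (k * (c + 1)) + k * t + k ^ 2 := by
      ring
    rw [hq]
    rcases hcn.lt_or_eq with hlt | heq
    · have hcn1 : n - 1 ≤ c := by omega
      rcases hk.lt_or_eq with hk2 | hk1
      · have hk2' : 2 ≤ k := hk2
        have e1 : k * n ≤ k * (c + 1) := mul_le_mul_of_nonneg_left (by linarith) (by linarith)
        have e2 : n * (k * n) ≤ n * (k * (c + 1)) := mul_le_mul_of_nonneg_left e1 (by linarith)
        have e3 : k * t ≤ k * (n - 1) := mul_le_mul_of_nonneg_left (by linarith) (by linarith)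
        have e4 : k * k ≤ k * (n - 1) := mul_le_mul_of_nonneg_left (by linarith) (by linarith)
        have e5 : 0 < n ^ 2 - 2 * n + 2 := by nlinarith
        have e6 : 2 * (n ^ 2 - 2 * n + 2) ≤ k * (n ^ 2 - 2 * n + 2) :=
          mul_le_mul_of_nonneg_right hk2' e5.le
        have e7 : n ^ 2 - n * (k * (c + 1)) + k * t + k ^ 2 < 0 := by nlinarith
        constructor
        · linarith
        · intro h; linarith
      · subst hk1
        constructor
        · have e1 : n * (n + t) ≤ n * (1 * (c + 1)) := mul_le_mul_of_nonneg_left h1 (by linarith)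
          nlinarith
        · intro _; left; rfl
    · subst heq
      have ht2 : t ≤ n - 2 := by linarith
      have hk2 : 2 ≤ k := by
        by_contra hcon
        have : k = 1 := by omega
        subst this
        linarith
      have e1 : k * t ≤ k * (n - 2) := mul_le_mul_of_nonneg_left ht2 (by linarith)
      have e2 : 0 ≤ (k - 2) * (n - 1 - k) := mul_nonneg (by linarith) (by linarith)
      have e3 : n ^ 2 - n * (k * (n - 2 + 1)) + k * t + k ^ 2 ≤
          n ^ 2 - k * (n ^ 2 - 2 * n + 2) + k ^ 2 := by linarith
      -- k^2 ≤ (n+1) k - 2 (n-1)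
      have e4 : k ^ 2 ≤ (n + 1) * k - 2 * (n - 1) := by linarith
      have e5 : n ^ 2 - n * (k * (n - 2 + 1)) + k * t + k ^ 2 ≤
          n ^ 2 - 2 * (n - 1) - k * (n ^ 2 - 3 * n + 1) := by linarith
      have e6 : 0 < n ^ 2 - 3 * n + 1 := by nlinarith
      rcases lt_or_ge 4 n with h5 | h5
      · have e7 : 2 * (n ^ 2 - 3 * n + 1) ≤ k * (n ^ 2 - 3 * n + 1) :=
          mul_le_mul_of_nonneg_right hk2 e6.le
        have e8 : n ^ 2 - n * (k * (n - 2 + 1)) + k * t + k ^ 2 < 0 := by nlinarith
        constructor
        · linarith
        · intro h; linarith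
      · have hn4 : n = 4 := by omega
        subst hn4
        have hk3 : k ≤ 3 := by omega
        interval_cases k
        · constructor
          · omega
          · intro h; right; omega
        · constructor
          · omega
          · intro h; omega

lemma q_big {n d k a : ℤ} (hn : 2 ≤ n) (hkn : n ≤ k) (ha1 : a * n ≤ d) (ha2 : d < (a + 1) * n)
    (h1 : k < n * (a + 1)) (h2 : k * (a + 1) ≤ a * (2 * n + d)) (hd0 : 0 ≤ d)
    (hd : (n - 1) * (n - 2) ≤ d ∨ n ≤ 3) :
    n ^ 2 - k * (n + d - k) ≤ 1 ∧
      (n ^ 2 - k * (n + d - k) = 0 → n + d - k = 1 ∨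
        (n = 2 ∧ d = 2 ∧ k = 2) ∨ (n = 3 ∧ d = 3 ∧ k = 3)) := by
  obtain ⟨m, hm⟩ : ∃ m, m = n + d - k := ⟨_, rfl⟩
  obtain ⟨r, hr⟩ : ∃ r, r = d - a * n := ⟨_, rfl⟩
  have hr0 : 0 ≤ r := by linarith
  have hrn : r < n := by linarith
  have hdr : d = a * n + r := by linarith
  have hk : k = n + a * n + r - m := by linarith
  have h3 : n + r ≤ m * (a + 1) := by
    rw [hk, hdr] at h2
    linarith
  have h4 : r + 1 ≤ m := by
    rw [hk] at h1
    linarith
  rw [← hm]
  rcases le_or_gt n m with hmn | hmn
  · have e1 : n * n ≤ k * m := mul_le_mul hkn hmn (by linarith) (by linarith)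
    constructor
    · nlinarith
    · intro h
      right
      have e2 : k * m = n * n := by nlinarith
      have hk' : k = n := by
        by_contra hcon
        have : n + 1 ≤ k := by omega
        nlinarith
      subst hk'
      have hm' : m = k := by
        have : k * m = k * k := e2
        exact mul_left_cancel₀ (by linarith) this
      have hdk : d = k := by linarith
      rcases hd with hd | hd
      · rw [hdk] at hd
        have : k ≤ 3 := by
          by_contra hcon
          have : 4 ≤ k := by omega
          nlinarith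
        omega
      · omega
  · have hq : n ^ 2 - k * m = n ^ 2 - n * (m * (a + 1)) - m * r + m ^ 2 := by rw [hk]; ring
    rw [hq]
    have hmr : 0 ≤ m * r := mul_nonneg (by linarith) hr0
    rcases lt_or_ge 1 m with hm1 | hm1
    · have hm2 : 2 ≤ m := hm1
      rcases le_or_gt n 3 with hn3 | hn3
      · have hn3' : n = 3 := by omega
        subst hn3'
        have hm2' : m = 2 := by omega
        subst hm2'
        constructor <;> omega
      · have hd' : (n - 1) * (n - 2) ≤ d := by
          rcases hd with h | h
          · exact h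
          · omega
        have han : n - 3 ≤ a := by
          by_contra hcon
          have : a + 1 ≤ n - 3 := by omega
          nlinarith
        have hneg : n ^ 2 - n * (m * (a + 1)) - m * r + m ^ 2 < 0 := by
          rcases han.lt_or_eq with hlt | heq
          · have e1 : m * (n - 1) ≤ m * (a + 1) :=
              mul_le_mul_of_nonneg_left (by omega) (by linarith)
            have e2 : n * (m * (n - 1)) ≤ n * (m * (a + 1)) :=
              mul_le_mul_of_nonneg_left e1 (by linarith)
            have e3 : 0 ≤ (m - 2) * (n - 1 - m) := mul_nonneg (by linarith) (by linarith)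
            have e4 : m ^ 2 ≤ (n + 1) * m - 2 * (n - 1) := by linarith
            have e5 : 0 < n ^ 2 - 2 * n - 1 := by nlinarith
            have e6 : 2 * (n ^ 2 - 2 * n - 1) ≤ m * (n ^ 2 - 2 * n - 1) :=
              mul_le_mul_of_nonneg_right hm2 e5.le
            nlinarith
          · subst heq
            have hr2 : 2 ≤ r := by linarith
            have hm3 : 3 ≤ m := by linarith
            have e1 : m * 2 ≤ m * r := mul_le_mul_of_nonneg_left hr2 (by linarith)
            have e3 : 0 ≤ (m - 3) * (n - 1 - m) := mul_nonneg (by linarith) (by linarith)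
            have e4 : m ^ 2 ≤ (n + 2) * m - 3 * (n - 1) := by linarith
            have e5 : 0 < n ^ 2 - 3 * n := by nlinarith
            have e6 : 3 * (n ^ 2 - 3 * n) ≤ m * (n ^ 2 - 3 * n) :=
              mul_le_mul_of_nonneg_right hm3 e5.le
            nlinarith
        constructor
        · linarith
        · intro h; linarith
    · have hm1' : m = 1 := by omega
      have hr0' : r = 0 := by omega
      subst hm1' hr0'
      constructor
      · have : n * (n + 0) ≤ n * (1 * (a + 1)) := mul_le_mul_of_nonneg_left h3 (by linarith)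
        nlinarith
      · intro _; left; rfl

end CohP1.Closed
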