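import Pool.Agent.Lib_helper91.Coh.ClosedDef
import Pool.Agent.Lib_helper91.Coh.AdmLB
import Pool.Agent.Lib_helper91.Coh.NumQ
import Pool.Agent.Lib_helper87.Coh.Final2

/-!
# Closed formulas for the stability intervals: proof
-/

namespace CohP1.Closed

open CohP1

lemma floor_spec {n : ℕ} (hn : 1 ≤ n) (d : ℤ) :
    ⌊(d : ℝ) / n⌋ * n ≤ d ∧ d < (⌊(d : ℝ) / n⌋ + 1) * n := by
  have h0 : (0 : ℝ) < n := by exact_mod_cast hn
  constructor
  · have := Int.floor_le ((d : ℝ) / n)
    rw [le_div_iff₀ h0] at this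
    exact_mod_cast this
  · have := Int.lt_floor_add_one ((d : ℝ) / n)
    rw [div_lt_iff₀ h0] at this
    exact_mod_cast this

lemma ceil_spec {n : ℕ} (hn : 1 ≤ n) (d : ℤ) :
    (⌈(d : ℝ) / n⌉ - 1) * n < d ∧ d ≤ ⌈(d : ℝ) / n⌉ * n := by
  have h0 : (0 : ℝ) < n := by exact_mod_cast hn
  constructor
  · have := Int.ceil_lt_add_one ((d : ℝ) / n)
    have h2 : ((⌈(d : ℝ) / n⌉ : ℝ) - 1) < d / n := by linarith
    rw [lt_div_iff₀ h0] at h2
    exact_mod_cast h2
  · have := Int.le_ceil ((d : ℝ) / n)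
    rw [div_le_iff₀ h0] at this
    exact_mod_cast this

lemma floor_spec' {n k : ℕ} (hkn : k < n) (d : ℤ) :
    ⌊(d : ℝ) / ((n : ℝ) - k)⌋ * ((n : ℤ) - k) ≤ d ∧ d < (⌊(d : ℝ) / ((n : ℝ) - k)⌋ + 1) * ((n : ℤ) - k) := by
  have h0 : (0 : ℝ) < (n : ℝ) - k := by
    have : (k : ℝ) < n := by exact_mod_cast hkn
    linarith
  constructor
  · have := Int.floor_le ((d : ℝ) / ((n : ℝ) - k))
    rw [le_div_iff₀ h0] at this
    exact_mod_cast this
  · have := Int.lt_floor_add_one ((d : ℝ) / ((n : ℝ) - k))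
    rw [div_lt_iff₀ h0] at this
    exact_mod_cast this

/-- The conditions `A`, `B` for all `a` from those for `a = ⌈d/n⌉`, `⌊d/n⌋`. -/
lemma lbA_of {α : ℝ} {n d k c : ℤ} (hn : 1 ≤ n) (hc : d ≤ c * n) (hc' : (c - 1) * n < d)
    (h : (c : ℝ) * n < d + α * k) (a : ℤ) (ha : a * n < n + d) : (a : ℝ) * n < d + α * k := by
  have hac : a ≤ c := by
    by_contra hcon
    push Not at hcon
    have h1 : c + 1 ≤ a := hcon
    have h2 : (c + 1) * n ≤ a * n := mul_le_mul_of_nonneg_right h1 (by linarith)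
    linarith
  have h1 : (a : ℝ) ≤ c := by exact_mod_cast hac
  have hn0 : (0 : ℝ) ≤ n := by exact_mod_cast (by linarith : 0 ≤ n)
  have := mul_le_mul_of_nonneg_right h1 hn0
  linarith

lemma lbB_of {α : ℝ} (hα : 0 < α) {n d k q : ℤ} (hn : 1 ≤ n) (hq : q * n ≤ d)
    (h : (d : ℝ) + α * k < n * (q + α * (q + 1))) (a : ℤ) (ha : d < n * (a + 1)) :
    (d : ℝ) + α * k < n * (a + α * (a + 1)) := by
  have hqa : q ≤ a := by
    by_contra hcon
    push Not at hcon
    have h1 : a + 1 ≤ q := hcon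
    have h2 : (a + 1) * n ≤ q * n := mul_le_mul_of_nonneg_right h1 (by linarith)
    linarith
  have h1 : (q : ℝ) ≤ a := by exact_mod_cast hqa
  have hn0 : (0 : ℝ) ≤ n := by exact_mod_cast (by linarith : 0 ≤ n)
  have h2 : α * (q : ℝ) ≤ α * a := mul_le_mul_of_nonneg_left h1 hα.le
  have := mul_le_mul_of_nonneg_left (by linarith : (q : ℝ) + α * (q + 1) ≤ a + α * (a + 1)) hn0
  linarith

/-- `k < n`. -/
lemma lb_small {α : ℝ} {n d k a c l : ℤ} (hk : 1 ≤ k) (hkn : k < n) (hd0 : 0 ≤ d)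
    (ha1 : a * n ≤ d) (ha2 : d < (a + 1) * n) (hc1 : (c - 1) * n < d) (hc2 : d ≤ c * n)
    (hl1 : l * (n - k) ≤ d) (hl2 : d < (l + 1) * (n - k)) :
    (0 < α ∧ LB α n d k) ↔
      (max (((n : ℝ) * c - d) / k) ((d - n * a) / (n * (a + 1) - k)) < α ∧
        α < (n * l - d) / k) := by
  have hn1 : 1 ≤ n := by omega
  have hk0 : (0 : ℝ) < k := by exact_mod_cast (by omega : (0 : ℤ) < k)
  have hn0 : (0 : ℝ) < n := by exact_mod_cast (by omega : (0 : ℤ) < n)
  have ha0 : 0 ≤ a := by
    by_contra hcon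
    push Not at hcon
    have h1 : a + 1 ≤ 0 := hcon
    have : (a + 1) * n ≤ 0 * n := mul_le_mul_of_nonneg_right h1 (by linarith)
    linarith
  have hc0 : 0 ≤ c := by
    by_contra hcon
    push Not at hcon
    have h1 : c ≤ -1 := by omega
    have : c * n ≤ (-1) * n := mul_le_mul_of_nonneg_right h1 (by linarith)
    linarith
  have hl0 : 0 ≤ l := by
    by_contra hcon
    push Not at hcon
    have h1 : l + 1 ≤ 0 := hcon
    have : (l + 1) * (n - k) ≤ 0 * (n - k) := mul_le_mul_of_nonneg_right h1 (by linarith)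
    linarith
  have hden : (0 : ℝ) < n * (a + 1) - k := by
    have h1 : (k : ℝ) < n := by exact_mod_cast hkn
    have h2 : (0 : ℝ) ≤ a := by exact_mod_cast ha0
    have h3 : 0 ≤ (n : ℝ) * a := by positivity
    linarith
  rw [max_lt_iff, div_lt_iff₀ hk0, div_lt_iff₀ hden, lt_div_iff₀ hk0]
  constructor
  · rintro ⟨hα, hLB⟩
    refine ⟨⟨?_, ?_⟩, ?_⟩
    · have := hLB.A c hc0 (by linarith)
      linarith
    · have := hLB.B a ha0 (by linarith)
      linarith
    · have := hLB.C l hl0 (by linarith)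
      linarith
  · rintro ⟨⟨h1, h2⟩, h3⟩
    have hα : 0 < α := by
      by_contra hcon
      push Not at hcon
      have : α * (k : ℝ) ≤ 0 := mul_nonpos_of_nonpos_of_nonneg hcon hk0.le
      have h4 : (d : ℝ) ≤ c * n := by exact_mod_cast hc2
      linarith
    refine ⟨hα, ⟨?_, ?_, ?_, ?_⟩⟩
    · intro a' _ ha'
      exact lbA_of hn1 hc2 hc1 (by linarith) a' ha'
    · intro a' _ ha'
      exact lbB_of hα hn1 ha1 (by linarith) a' ha'
    · intro a' ha'0 ha'
      have hla : l ≤ a' := by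
        by_contra hcon
        push Not at hcon
        have h1 : a' + 1 ≤ l := hcon
        have h2 : (a' + 1) * (n - k) ≤ l * (n - k) := mul_le_mul_of_nonneg_right h1 (by linarith)
        linarith
      have h4 : (l : ℝ) ≤ a' := by exact_mod_cast hla
      have := mul_le_mul_of_nonneg_left h4 hn0.le
      linarith
    · intro a' ha'0 ha'
      have hm : 1 ≤ n + d - k := by linarith
      have ha'1 : a' = 0 := by
        by_contra hcon
        have h4 : 1 ≤ a' := by omega
        have h5 : 1 * (2 * n + d - k) ≤ a' * (2 * n + d - k) :=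
          mul_le_mul_of_nonneg_right h4 (by linarith)
        linarith
      subst ha'1
      -- n α < d + α k
      have hnk : (0 : ℝ) < n - k := by
        have : (k : ℝ) < n := by exact_mod_cast hkn
        linarith
      have h4 : (l : ℝ) * (n - k) ≤ d := by exact_mod_cast hl1
      have h5 : (α * k) * (n - k) < (n * l - d) * (n - k) := mul_lt_mul_of_pos_right h3 hnk
      have h6 : (n : ℝ) * (l * (n - k)) ≤ n * d := mul_le_mul_of_nonneg_left h4 hn0.le
      have h7 : k * (α * (n - k)) < k * (d : ℝ) := by linarith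
      have h8 : α * (n - k) < (d : ℝ) := lt_of_mul_lt_mul_left h7 hk0.le
      push_cast
      linarith

/-- `n ≤ k`. -/
lemma lb_big {α : ℝ} (hα : 0 < α) {n d k a c : ℤ} (hn : 1 ≤ n) (hkn : n ≤ k) (hd0 : 0 ≤ d)
    (ha1 : a * n ≤ d) (ha2 : d < (a + 1) * n) (hc1 : (c - 1) * n < d) (hc2 : d ≤ c * n) :
    LB α n d k ↔ ((k < n * (a + 1) ∧ k * (a + 1) ≤ a * (2 * n + d)) ∧
      max (((n : ℝ) * c - d) / k) ((d - n * a) / (n * (a + 1) - k)) < α) := by
  have hk0 : (0 : ℝ) < k := by exact_mod_cast (by omega : (0 : ℤ) < k)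
  have hn0 : (0 : ℝ) < n := by exact_mod_cast (by omega : (0 : ℤ) < n)
  have ha0 : 0 ≤ a := by
    by_contra hcon
    push Not at hcon
    have h1 : a + 1 ≤ 0 := hcon
    have : (a + 1) * n ≤ 0 * n := mul_le_mul_of_nonneg_right h1 (by linarith)
    linarith
  have hc0 : 0 ≤ c := by
    by_contra hcon
    push Not at hcon
    have h1 : c ≤ -1 := by omega
    have : c * n ≤ (-1) * n := mul_le_mul_of_nonneg_right h1 (by linarith)
    linarith
  constructor
  · intro hLB
    have hB := hLB.B a ha0 (by linarith)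
    have hA := hLB.A c hc0 (by linarith)
    have hda : (a : ℝ) * n ≤ d := by exact_mod_cast ha1
    have hden : (0 : ℝ) < n * (a + 1) - k := by
      by_contra hcon
      push Not at hcon
      have : α * ((n : ℝ) * (a + 1) - k) ≤ 0 := mul_nonpos_of_nonneg_of_nonpos hα.le hcon
      linarith
    refine ⟨⟨?_, ?_⟩, ?_⟩
    · have : (0 : ℝ) < ((n * (a + 1) - k : ℤ) : ℝ) := by push_cast; exact hden
      have : 0 < n * (a + 1) - k := by exact_mod_cast this
      linarith
    · by_contra hcon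
      push Not at hcon
      have := hLB.D a ha0 (by linarith)
      linarith
    · rw [max_lt_iff, div_lt_iff₀ hk0, div_lt_iff₀ hden]
      constructor <;> linarith
  · rintro ⟨⟨h1, h2⟩, h3⟩
    have hden : (0 : ℝ) < n * (a + 1) - k := by
      have : (k : ℝ) < n * (a + 1) := by exact_mod_cast h1
      linarith
    rw [max_lt_iff, div_lt_iff₀ hk0, div_lt_iff₀ hden] at h3
    refine ⟨?_, ?_, ?_, ?_⟩
    · intro a' _ ha'
      exact lbA_of hn hc2 hc1 (by linarith) a' ha'
    · intro a' _ ha'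
      exact lbB_of hα hn ha1 (by linarith) a' ha'
    · intro a' ha'0 ha'
      have : (n - k) * (1 + a') ≤ 0 := mul_nonpos_of_nonpos_of_nonneg (by linarith) (by linarith)
      linarith
    · intro a' ha'0 ha'
      have haa : a' < a := by
        by_contra hcon
        push Not at hcon
        have hm : 0 ≤ 2 * n + d - k := by linarith
        have h5 : a * (2 * n + d - k) ≤ a' * (2 * n + d - k) := mul_le_mul_of_nonneg_right hcon hm
        linarith
      have haa1 : a' + 1 ≤ a := haa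
      have h5 : (a' + 1) * n ≤ a * n := mul_le_mul_of_nonneg_right haa1 (by linarith)
      have h6 : n * (a' + 1) ≤ k := by
        by_contra hcon
        push Not at hcon
        -- m = n + d - k > n
        have h7 : n < n + d - k := by linarith
        have h8 : a' * (2 * n) ≤ a' * (2 * n + d - k) :=
          mul_le_mul_of_nonneg_left (by linarith) ha'0
        have h9 : a' * n < 1 * n := by linarith
        have h10 : a' < 1 := lt_of_mul_lt_mul_right h9 (by linarith)
        have h11 : a' = 0 := by omega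
        subst h11
        linarith
      have r1 : (n : ℝ) * (a' + 1) ≤ k := by exact_mod_cast h6
      have r2 : α * ((n : ℝ) * (a' + 1)) ≤ α * k := mul_le_mul_of_nonneg_left r1 hα.le
      have r3 : (n : ℝ) * a' < d := by
        have : n * a' < d := by linarith
        exact_mod_cast this
      linarith

/-- The closed formulas hold for nonnegative degrees `d ≥ (n - 1) (n - 2)`. -/
theorem mem_closedForm {α : ℝ} {n d k : ℕ} (hn : 2 ≤ n) (hk : 1 ≤ k)
    (hd : ((n : ℤ) - 1) * (n - 2) ≤ d) (h1 : (n, d, k) ≠ (2, 2, 2)) (h2 : (n, d, k) ≠ (3, 3, 3))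
    (h3 : (n, d, k) ≠ (4, 6, 2)) :
    (0 < α ∧ Adm α n d k) ↔ α ∈ closedForm n d k := by
  have hn1 : 1 ≤ n := by omega
  have hn1' : (1 : ℤ) ≤ n := by exact_mod_cast hn1
  have hn2' : (2 : ℤ) ≤ n := by exact_mod_cast hn
  have hk1' : (1 : ℤ) ≤ k := by exact_mod_cast hk
  have hd0 : (0 : ℤ) ≤ d := by positivity
  obtain ⟨ha1, ha2⟩ := floor_spec hn1 (d : ℤ)
  obtain ⟨hc1, hc2⟩ := ceil_spec hn1 (d : ℤ)
  unfold closedForm
  split_ifs with hkn hkd
  · obtain ⟨hl1, hl2⟩ := floor_spec' hkn (d : ℤ)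
    have hkn' : (k : ℤ) < n := by exact_mod_cast hkn
    have key := lb_small (α := α) hk1' hkn' hd0 ha1 ha2 hc1 hc2 hl1 hl2
    rw [Set.mem_Ioo]
    have e1 : (lowerEnd n d k < α ∧ α < upperEnd n d k) ↔ (0 < α ∧ LB α n d k) := by
      rw [key]
      unfold lowerEnd upperEnd
      push_cast
      rfl
    rw [e1]
    constructor
    · rintro ⟨hα, h⟩
      exact ⟨hα, ((adm_iff hα hn hk hd).1 h).2.2⟩
    · rintro ⟨hα, h⟩
      refine ⟨hα, (adm_iff hα hn hk hd).2 ?_⟩
      have hk0 : (0 : ℝ) < ((k : ℤ) : ℝ) := by exact_mod_cast (by omega : (0 : ℤ) < k)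
      obtain ⟨h4, h5⟩ := key.1 ⟨hα, h⟩
      have h4' := h4
      rw [max_lt_iff] at h4
      have h6 := h4.1.trans h5
      rw [div_lt_div_iff_of_pos_right hk0] at h6
      have h7 : (n : ℝ) * ⌈((d : ℤ) : ℝ) / n⌉ < n * ⌊((d : ℤ) : ℝ) / ((n : ℝ) - k)⌋ := by
        push_cast at h6 ⊢
        linarith
      have hn0 : (0 : ℝ) < n := by exact_mod_cast hn1
      have h8 : (⌈((d : ℤ) : ℝ) / n⌉ : ℝ) < ⌊((d : ℤ) : ℝ) / ((n : ℝ) - k)⌋ :=
        lt_of_mul_lt_mul_left h7 hn0.le
      have h9 : ⌈((d : ℤ) : ℝ) / n⌉ + 1 ≤ ⌊((d : ℤ) : ℝ) / ((n : ℝ) - k)⌋ := by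
        have : ⌈((d : ℤ) : ℝ) / n⌉ < ⌊((d : ℤ) : ℝ) / ((n : ℝ) - k)⌋ := by exact_mod_cast h8
        exact this
      have h10 : (⌈((d : ℤ) : ℝ) / n⌉ + 1) * ((n : ℤ) - k) ≤ d :=
        (mul_le_mul_of_nonneg_right h9 (by linarith)).trans hl1
      obtain ⟨q1, q2⟩ := q_small hk1' hkn' hc1 hc2 h10 hd0 (Or.inl hd) (by
        rintro ⟨g1, g2, g3⟩
        have g1' : n = 3 := by exact_mod_cast g1
        have g2' : d = 2 := by exact_mod_cast g2
        have g3' : k = 2 := by exact_mod_cast g3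
        subst g1' g2' g3'
        have hfl : ⌊((2 : ℕ) : ℤ) / ((3 : ℕ) : ℝ)⌋ = 0 := by
          rw [Int.floor_eq_zero_iff]; norm_num
        have hB := h.B 0 le_rfl (by norm_num)
        have hC := h.C 2 (by norm_num) (by norm_num)
        push_cast at hB hC
        linarith)
      refine ⟨q1, fun hq => ?_, h⟩
      rcases q2 hq with g | ⟨g1, g2, g3⟩
      · have : k = 1 := by exact_mod_cast g
        subst this
        simp
      · exfalso
        apply h3
        have g1' : n = 4 := by exact_mod_cast g1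
        have g2' : d = 6 := by exact_mod_cast g2
        have g3' : k = 2 := by exact_mod_cast g3
        rw [g1', g2', g3']
  · -- n ≤ k, conditions
    have hkn' : (n : ℤ) ≤ k := by exact_mod_cast (by omega : n ≤ k)
    rw [Set.mem_Ioi]
    constructor
    · rintro ⟨hα, h⟩
      have := (lb_big hα hn1' hkn' hd0 ha1 ha2 hc1 hc2).1 ((adm_iff hα hn hk hd).1 h).2.2
      have h4 := this.2
      unfold lowerEnd
      push_cast at h4 ⊢
      exact h4
    · intro h
      have hk0 : (0 : ℝ) < (k : ℝ) := by exact_mod_cast hk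
      have hα : 0 < α := by
        refine lt_of_le_of_lt ?_ h
        unfold lowerEnd
        refine le_max_of_le_left (div_nonneg ?_ hk0.le)
        have : ((d : ℤ) : ℝ) ≤ ⌈((d : ℤ) : ℝ) / n⌉ * n := by exact_mod_cast hc2
        linarith
      refine ⟨hα, (adm_iff hα hn hk hd).2 ?_⟩
      obtain ⟨q1, q2⟩ := q_big hn2' hkn' ha1 ha2 hkd.1 hkd.2 hd0 (Or.inl hd)
      refine ⟨q1, fun hq => ?_, ?_⟩
      · rcases q2 hq with g | ⟨g1, g2, g3⟩ | ⟨g1, g2, g3⟩
        · have hdvd1 : Nat.gcd n (Nat.gcd d k) ∣ n := Nat.gcd_dvd_left _ _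
          have hdvd2 : Nat.gcd n (Nat.gcd d k) ∣ d := (Nat.gcd_dvd_right _ _).trans (Nat.gcd_dvd_left _ _)
          have hdvd3 : Nat.gcd n (Nat.gcd d k) ∣ k := (Nat.gcd_dvd_right _ _).trans (Nat.gcd_dvd_right _ _)
          have g' : n + d = k + 1 := by omega
          have h5 : Nat.gcd n (Nat.gcd d k) ∣ k + 1 := by rw [← g']; exact Dvd.dvd.add hdvd1 hdvd2
          have h6 : Nat.gcd n (Nat.gcd d k) ∣ 1 := (Nat.dvd_add_right hdvd3).1 h5
          exact Nat.dvd_one.1 h6
        · exfalso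
          apply h1
          have g1' : n = 2 := by exact_mod_cast g1
          have g2' : d = 2 := by exact_mod_cast g2
          have g3' : k = 2 := by exact_mod_cast g3
          rw [g1', g2', g3']
        · exfalso
          apply h2
          have g1' : n = 3 := by exact_mod_cast g1
          have g2' : d = 3 := by exact_mod_cast g2
          have g3' : k = 3 := by exact_mod_cast g3
          rw [g1', g2', g3']
      · refine (lb_big hα hn1' hkn' hd0 ha1 ha2 hc1 hc2).2 ⟨hkd, ?_⟩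
        unfold lowerEnd at h
        push_cast at h ⊢
        exact h
  · -- n ≤ k, empty
    have hkn' : (n : ℤ) ≤ k := by exact_mod_cast (by omega : n ≤ k)
    constructor
    · rintro ⟨hα, h⟩
      exact absurd ((lb_big hα hn1' hkn' hd0 ha1 ha2 hc1 hc2).1 ((adm_iff hα hn hk hd).1 h).2.2).1
        hkd
    · intro h
      exact absurd h (Set.notMem_empty _)

end CohP1.Closed
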