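import Pool.Agent.Lib_helper91.Coh.Formula

/-!
# Closed formulas for the stability intervals: negative degrees, small ranks, sharpness
-/

namespace CohP1.Closed

open CohP1

lemma mem_si {n k : ℕ} (hn : 1 ≤ n) (hk : 1 ≤ k) {d : ℕ} {α : ℝ} :
    α ∈ stabilityInterval n (d : ℤ) k ↔ (0 < α ∧ Adm α n d k) := by
  rw [mem_stabilityInterval_iff hn hk]
  simp

lemma si_neg {n k : ℕ} (hn : 1 ≤ n) (hk : 1 ≤ k) {d : ℤ} (hd : d < 0) :
    stabilityInterval n d k = ∅ := by
  rw [Set.eq_empty_iff_forall_notMem]
  intro α hα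
  rw [mem_stabilityInterval_iff hn hk] at hα
  omega

/-- If `lowerEnd < upperEnd`, then `⌈d/n⌉ < ⌊d/(n-k)⌋`. -/
lemma ceil_lt_of_mem {n k : ℕ} (hn : 1 ≤ n) (hk : 1 ≤ k) {d : ℤ} {α : ℝ}
    (h : α ∈ Set.Ioo (lowerEnd n d k) (upperEnd n d k)) :
    ⌈(d : ℝ) / n⌉ < ⌊(d : ℝ) / ((n : ℝ) - k)⌋ := by
  obtain ⟨h1, h2⟩ := h
  have hk0 : (0 : ℝ) < k := by exact_mod_cast hk
  have hn0 : (0 : ℝ) < n := by exact_mod_cast hn
  have h3 : ((n : ℝ) * ⌈(d : ℝ) / n⌉ - d) / k < (n * ⌊(d : ℝ) / ((n : ℝ) - k)⌋ - d) / k :=
    lt_of_le_of_lt (le_max_left _ _) (h1.trans h2)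
  rw [div_lt_div_iff_of_pos_right hk0] at h3
  have h4 : (n : ℝ) * ⌈(d : ℝ) / n⌉ < n * ⌊(d : ℝ) / ((n : ℝ) - k)⌋ := by linarith
  have h5 := lt_of_mul_lt_mul_left h4 hn0.le
  exact_mod_cast h5

lemma cf_neg {n k : ℕ} (hn : 1 ≤ n) (hk : 1 ≤ k) {d : ℤ} (hd : d < 0) :
    closedForm n d k = ∅ := by
  rw [Set.eq_empty_iff_forall_notMem]
  intro α hα
  have hn1' : (1 : ℤ) ≤ n := by exact_mod_cast hn
  have hk1' : (1 : ℤ) ≤ k := by exact_mod_cast hk
  unfold closedForm at hα
  split_ifs at hα with hkn hkd
  · have h1 := ceil_lt_of_mem hn hk hα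
    obtain ⟨hl1, -⟩ := floor_spec' hkn d
    obtain ⟨-, hc2⟩ := ceil_spec hn d
    have hkn' : (k : ℤ) < n := by exact_mod_cast hkn
    have h2 : (⌈(d : ℝ) / n⌉ + 1) * ((n : ℤ) - k) ≤ d :=
      (mul_le_mul_of_nonneg_right h1 (by linarith)).trans hl1
    have hc0 : ⌈(d : ℝ) / n⌉ + 1 ≤ 0 := by
      by_contra hcon
      push Not at hcon
      have : 0 ≤ (⌈(d : ℝ) / n⌉ + 1) * ((n : ℤ) - k) := mul_nonneg (by linarith) (by linarith)
      linarith
    have h3 : (⌈(d : ℝ) / n⌉ + 1) * (n : ℤ) ≤ (⌈(d : ℝ) / n⌉ + 1) * ((n : ℤ) - k) :=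
      mul_le_mul_of_nonpos_left (by linarith) hc0
    -- (c+1) n ≤ d ≤ c n
    nlinarith
  · obtain ⟨ha1, -⟩ := floor_spec hn d
    have h1 := hkd.1
    have h2 : ⌊(d : ℝ) / n⌋ + 1 ≤ 0 := by
      by_contra hcon
      push Not at hcon
      have : 0 ≤ ⌊(d : ℝ) / n⌋ * (n : ℤ) := mul_nonneg (by linarith) (by linarith)
      linarith
    have h3 : (n : ℤ) * (⌊(d : ℝ) / n⌋ + 1) ≤ 0 := mul_nonpos_of_nonneg_of_nonpos (by linarith) h2
    linarith
  · exact hα

/-- Rank `3`, degree `0` or `1`: both sides are empty. -/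
lemma rank_three {k d : ℕ} (hk : 1 ≤ k) (hd : d ≤ 1) :
    stabilityInterval 3 (d : ℤ) k = closedForm 3 d k := by
  have e1 : stabilityInterval 3 (d : ℤ) k = ∅ := by
    rw [Set.eq_empty_iff_forall_notMem]
    intro α hα
    rw [mem_si (by norm_num) hk, Adm, euler_self] at hα
    have h := hα.2.1
    push_cast at h
    have hd' : (d : ℤ) ≤ 1 := by exact_mod_cast hd
    have hk' : (1 : ℤ) ≤ k := by exact_mod_cast hk
    nlinarith [sq_nonneg ((k : ℤ) - 2)]
  rw [e1]
  symm
  rw [Set.eq_empty_iff_forall_notMem]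
  intro α hα
  have hk1' : (1 : ℤ) ≤ k := by exact_mod_cast hk
  unfold closedForm at hα
  split_ifs at hα with hkn hkd
  · have h1 := ceil_lt_of_mem (n := 3) (by norm_num) hk hα
    obtain ⟨hl1, -⟩ := floor_spec' hkn (d : ℤ)
    obtain ⟨hc1, hc2⟩ := ceil_spec (n := 3) (by norm_num) (d : ℤ)
    push_cast at *
    have h2 : (⌈((d : ℤ) : ℝ) / 3⌉ + 1) * (3 - (k : ℤ)) ≤ d :=
      (mul_le_mul_of_nonneg_right h1 (by linarith)).trans hl1
    interval_cases d
    · interval_cases k <;> omega
    · interval_cases k <;> omega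
  · obtain ⟨ha1, -⟩ := floor_spec (n := 3) (by norm_num) (d : ℤ)
    have h1 := hkd.1
    push_cast at *
    omega
  · exact hα

/-- The closed formulas. -/
theorem closed_main {n k : ℕ} {d : ℤ} (hn : 2 ≤ n) (hk : 1 ≤ k)
    (hd : d < 0 ∨ ((n : ℤ) - 1) * (n - 2) ≤ d ∨ n ≤ 3) (h1 : (n, d, k) ≠ (2, 2, 2))
    (h2 : (n, d, k) ≠ (3, 3, 3)) (h3 : (n, d, k) ≠ (4, 6, 2)) :
    stabilityInterval n d k = closedForm n d k := by
  have hn1 : 1 ≤ n := by omega
  rcases lt_or_ge d 0 with hneg | hnn
  · rw [si_neg hn1 hk hneg, cf_neg hn1 hk hneg]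
  · lift d to ℕ using hnn
    have main : ((n : ℤ) - 1) * (n - 2) ≤ d →
        stabilityInterval n (d : ℤ) k = closedForm n d k := by
      intro hd'
      ext α
      rw [mem_si hn1 hk]
      exact mem_closedForm hn hk hd' (by
        intro he; apply h1
        simp only [Prod.mk.injEq] at he ⊢
        omega) (by
        intro he; apply h2
        simp only [Prod.mk.injEq] at he ⊢
        omega) (by
        intro he; apply h3
        simp only [Prod.mk.injEq] at he ⊢
        omega)
    rcases hd with hd | hd | hd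
    · omega
    · exact main hd
    · rcases (by omega : n = 2 ∨ n = 3) with rfl | rfl
      · exact main (by push_cast; omega)
      · rcases Nat.lt_or_ge 1 d with hd1 | hd1
        · exact main (by push_cast; omega)
        · exact rank_three hk hd1

/-- The three exceptions are empty. -/
lemma exceptions : stabilityInterval 2 2 2 = ∅ ∧ stabilityInterval 3 3 3 = ∅ ∧
    stabilityInterval 4 6 2 = ∅ := by
  have key : ∀ n d k : ℕ, 1 ≤ n → 1 ≤ k → (n : ℤ) ^ 2 - k * ((n : ℤ) + d - k) = 0 →
      Nat.gcd n (Nat.gcd d k) ≠ 1 → stabilityInterval n (d : ℤ) k = ∅ := by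
    intro n d k hn hk hq hg
    rw [Set.eq_empty_iff_forall_notMem]
    intro α hα
    rw [mem_si hn hk, Adm, euler_self] at hα
    exact hg (hα.2.2.1 hq)
  refine ⟨?_, ?_, ?_⟩
  · exact_mod_cast key 2 2 2 (by norm_num) (by norm_num) (by norm_num) (by norm_num)
  · exact_mod_cast key 3 3 3 (by norm_num) (by norm_num) (by norm_num) (by norm_num)
  · exact_mod_cast key 4 6 2 (by norm_num) (by norm_num) (by norm_num) (by norm_num)

/-- Rank one. -/
theorem rank_one_interval {k : ℕ} (hk : 1 ≤ k) (d : ℤ) :
    stabilityInterval 1 d k = if (k : ℤ) ≤ d + 1 then Set.Ioi 0 else ∅ := by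
  have hk' : (1 : ℤ) ≤ k := by exact_mod_cast hk
  rcases lt_or_ge d 0 with hneg | hnn
  · rw [si_neg le_rfl hk hneg, if_neg (by omega)]
  · lift d to ℕ using hnn
    split_ifs with hkd
    · ext α
      rw [mem_si le_rfl hk, Set.mem_Ioi]
      constructor
      · exact fun h => h.1
      · intro hα
        refine ⟨hα, ?_⟩
        rcases (by omega : k = d + 1 ∨ k ≤ d) with hk1 | hk1
        · subst hk1
          exact adm_line1 hα d
        · have hkd' : (k : ℤ) ≤ d := by exact_mod_cast hk1
          rw [Adm, euler_self]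
          push_cast
          have hm : 1 ≤ 1 + (d : ℤ) - k := by omega
          have hkm : 1 * 1 ≤ (k : ℤ) * (1 + d - k) := mul_le_mul hk' hm (by norm_num) (by linarith)
          refine ⟨by linarith, fun _ => by simp, ?_⟩
          intro n' d' k' h1 h2 h3 h4 h5 h6 _
          rcases Nat.lt_or_ge 1 n' with hn' | hn'
          · have h6' := (real_iff _ _ _).1 h6
            obtain ⟨g1, g2⟩ := trivial_ge (n := 1) (d := d) (k := k) (p := n') (e := d') (j := k')
              hα le_rfl (by omega) (by omega) (by omega) (by omega) (by omega) h6' (by omega)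
              (by omega) (by omega) (by omega)
            constructor
            · intro hs
              rw [slope_le_iff' le_rfl h1] at hs
              push_cast at hs g1
              exact absurd hs g1
            · intro _
              simp only [euler]
              push_cast at g2 ⊢
              exact g2
          · have hn1 : n' = 1 := by omega
            subst hn1
            have e3 : (d' : ℝ) ≤ d := by exact_mod_cast h3
            have e4 : (0 : ℝ) < k := by exact_mod_cast hk
            have e5 : 0 < α * (k : ℝ) := mul_pos hα e4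
            have e6 : (d' : ℤ) ≤ d := by exact_mod_cast h3
            rcases rank_one h6 with h7 | h7
            · subst h7
              constructor
              · intro hs
                rw [slope_le_iff' le_rfl le_rfl] at hs
                push_cast at hs
                linarith
              · intro _
                simp only [euler]
                push_cast
                have : 1 * (1 + (d' : ℤ)) ≤ k * (1 + d') :=
                  mul_le_mul_of_nonneg_right hk' (by positivity)
                linarith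
            · subst h7
              have hd' : d' < d := by omega
              constructor
              · intro hs
                rw [slope_le_iff' le_rfl le_rfl] at hs
                push_cast at hs
                have e7 : (d' : ℝ) + 1 ≤ d := by exact_mod_cast hd'
                have e8 : ((d' : ℝ) + 1) ≤ k := by exact_mod_cast h2
                have e9 : α * ((d' : ℝ) + 1) ≤ α * k := mul_le_mul_of_nonneg_left e8 hα.le
                linarith
              · intro _
                simp only [euler]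
                push_cast
                have : (d' : ℤ) + 1 ≤ d := by exact_mod_cast hd'
                nlinarith
    · rw [Set.eq_empty_iff_forall_notMem]
      intro α hα
      rw [mem_si le_rfl hk, Adm, euler_self] at hα
      have h := hα.2.1
      push_cast at h
      have h1 : (k : ℤ) * (1 + d - k) ≤ k * (-1) := mul_le_mul_of_nonneg_left (by omega) (by linarith)
      nlinarith

/-- Sharpness: the closed formula fails for `d = k = (n - 1) (n - 2) - 1`, `n ≥ 4`. -/
theorem sharp (s : ℕ) :
    stabilityInterval (s + 4) ((s ^ 2 + 5 * s + 5 : ℕ) : ℤ) (s ^ 2 + 5 * s + 5) ≠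
      closedForm (s + 4) ((s ^ 2 + 5 * s + 5 : ℕ) : ℤ) (s ^ 2 + 5 * s + 5) := by
  intro heq
  have hs0 : (0 : ℝ) ≤ s := by positivity
  obtain ⟨α, hα⟩ : ∃ α : ℝ, α = (s + 2) / (s ^ 2 + 4 * s + 2) := ⟨_, rfl⟩
  have hden : (0 : ℝ) < s ^ 2 + 4 * s + 2 := by positivity
  have hαm : α * (s ^ 2 + 4 * s + 2) = s + 2 := by rw [hα]; exact div_mul_cancel₀ _ hden.ne'
  have hα0 : 0 < α := by rw [hα]; positivity
  -- α lies in the closed form
  have hfl : ⌊(((s ^ 2 + 5 * s + 5 : ℕ) : ℤ) : ℝ) / ((s + 4 : ℕ) : ℝ)⌋ = s + 1 := by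
    rw [Int.floor_eq_iff]
    push_cast
    constructor
    · rw [le_div_iff₀ (by positivity)]; nlinarith
    · rw [div_lt_iff₀ (by positivity)]; nlinarith
  have hcl : ⌈(((s ^ 2 + 5 * s + 5 : ℕ) : ℤ) : ℝ) / ((s + 4 : ℕ) : ℝ)⌉ = s + 2 := by
    rw [Int.ceil_eq_iff]
    push_cast
    constructor
    · rw [lt_div_iff₀ (by positivity)]; nlinarith
    · rw [div_le_iff₀ (by positivity)]; nlinarith
  have hmem : α ∈ closedForm (s + 4) ((s ^ 2 + 5 * s + 5 : ℕ) : ℤ) (s ^ 2 + 5 * s + 5) := by
    unfold closedForm
    rw [if_neg (by nlinarith), if_pos, Set.mem_Ioi]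
    · unfold lowerEnd
      rw [hfl, hcl, max_lt_iff]
      push_cast
      constructor
      · rw [div_lt_iff₀ (by positivity)]
        nlinarith [mul_pos hα0 hden]
      · rw [div_lt_iff₀ (by nlinarith)]
        nlinarith [mul_pos hα0 hden]
    · rw [hfl]
      push_cast
      constructor <;> nlinarith
  rw [← heq, mem_si (by omega) (Nat.le_add_left_of_le (by norm_num)), Adm] at hmem
  -- the type c
  have hc : Adm α (s + 2) ((s + 2) * (s + 1)) ((s + 3) * (s + 1)) := by
    have hfl' : ⌊((((s + 2) * (s + 1) : ℕ) : ℤ) : ℝ) / ((s + 2 : ℕ) : ℝ)⌋ = s + 1 := by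
      rw [Int.floor_eq_iff]
      push_cast
      constructor
      · rw [le_div_iff₀ (by positivity)]; nlinarith
      · rw [div_lt_iff₀ (by positivity)]; nlinarith
    have hcl' : ⌈((((s + 2) * (s + 1) : ℕ) : ℤ) : ℝ) / ((s + 2 : ℕ) : ℝ)⌉ = s + 1 := by
      rw [Int.ceil_eq_iff]
      push_cast
      constructor
      · rw [lt_div_iff₀ (by positivity)]; nlinarith
      · rw [div_le_iff₀ (by positivity)]; nlinarith
    have := (mem_closedForm (α := α) (n := s + 2) (d := (s + 2) * (s + 1))
      (k := (s + 3) * (s + 1)) (by omega) (by nlinarith) (by push_cast; nlinarith)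
      (by
        intro he; simp only [Prod.mk.injEq] at he
        have : s = 0 := by omega
        subst this; omega)
      (by
        intro he; simp only [Prod.mk.injEq] at he
        have : s = 1 := by omega
        subst this; omega)
      (by
        intro he; simp only [Prod.mk.injEq] at he
        have : s = 2 := by omega
        subst this; omega)).2 (by
        unfold closedForm
        rw [if_neg (by nlinarith), if_pos, Set.mem_Ioi]
        · unfold lowerEnd
          rw [hfl', hcl', max_lt_iff]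
          push_cast
          constructor
          · rw [div_lt_iff₀ (by positivity)]
            nlinarith [mul_pos hα0 hden]
          · rw [div_lt_iff₀ (by nlinarith)]
            nlinarith [mul_pos hα0 hden]
        · rw [hfl']
          push_cast
          constructor <;> nlinarith)
    exact this.2
  have h1 := (hmem.2.2.2 (s + 2) ((s + 2) * (s + 1)) ((s + 3) * (s + 1)) (by omega) (by nlinarith)
    (by nlinarith) (by nlinarith) (by
      intro he; simp only [Prod.mk.injEq] at he; omega) (by
      rw [real_iff]; push_cast; ring) hc).2 (by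
      rw [slope_le_iff' (by omega) (by omega)]
      push_cast
      nlinarith)
  simp only [euler] at h1
  push_cast at h1
  nlinarith

end CohP1.Closed
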