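import Mathlib

/-!
# Exceptional types of rank at least two: inequalities

Types `b = (n,d,k)` and `c = (p,e,j)` with `j * (p + e - j) = p ^ 2 - 1`, `2 ≤ p`.
-/

namespace CohP1.Closed

/-- Real types of rank `≥ 2` have `j, m ≥ 1`. -/
lemma real_pos {p e j : ℤ} (hp : 2 ≤ p) (he : 0 ≤ e) (hj : 0 ≤ j)
    (h : j * (p + e - j) = p ^ 2 - 1) : 1 ≤ j ∧ 1 ≤ p + e - j := by
  have h1 : 0 < j * (p + e - j) := by rw [h]; nlinarith
  constructor
  · rcases hj.lt_or_eq with h2 | h2
    · omega
    · rw [← h2] at h1; simp at h1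
  · by_contra h2
    push Not at h2
    have : p + e - j ≤ 0 := by omega
    nlinarith

lemma real_e_pos {p e j : ℤ} (hp : 2 ≤ p) (he : 0 ≤ e) (hj : 0 ≤ j)
    (h : j * (p + e - j) = p ^ 2 - 1) : 1 ≤ e := by
  by_contra h2
  have he0 : e = 0 := by omega
  subst he0
  nlinarith [sq_nonneg (p - 2 * j)]

lemma real_e_le {p e j : ℤ} (hp : 2 ≤ p) (he : 0 ≤ e) (hj : 0 ≤ j)
    (h : j * (p + e - j) = p ^ 2 - 1) : e ≤ p * (p - 1) := by
  obtain ⟨h1, h2⟩ := real_pos hp he hj h
  nlinarith [mul_nonneg (sub_nonneg.2 h1) (sub_nonneg.2 h2)]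

lemma idA {n d k p e j : ℤ} (h : j * (p + e - j) = p ^ 2 - 1) :
    p * (p * n - j * (n + d - k) + (p * d - e * n)) =
      n + (p - j) * (p * d - e * n) + j * (p * k - j * n) := by
  linear_combination (-n) * h

lemma idB {n d k p e j : ℤ} (h : j * (p + e - j) = p ^ 2 - 1) :
    p * (n * p - k * (p + e - j) + (n * e - d * p)) =
      n - p * (p * d - e * n) - (p + e - j) * (p * k - j * n) := by
  linear_combination (-n) * h

/-- Rank `p ≥ n`: nothing to check. -/
lemma trivial_ge {n d k p e j : ℤ} {α : ℝ} (hα : 0 < α) (hn : 1 ≤ n) (hd : 0 ≤ d) (hk : 0 ≤ k)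
    (hp : 2 ≤ p) (he : 0 ≤ e) (hj : 0 ≤ j) (h : j * (p + e - j) = p ^ 2 - 1) (hpn : n ≤ p)
    (hjk : j ≤ k) (hed : e ≤ d) (hne : ¬ (p = n ∧ e = d ∧ j = k)) :
    ¬ ((d + α * k) * p ≤ (e + α * j) * n) ∧
      n * p - k * (p + e - j) + (n * e - d * p) ≤ 0 := by
  obtain ⟨h1, h2⟩ := real_pos hp he hj h
  have h3 := real_e_pos hp he hj h
  constructor
  · intro hc
    have c1 : (j : ℝ) ≤ k := by exact_mod_cast hjk
    have c2 : (e : ℝ) ≤ d := by exact_mod_cast hed
    have c3 : (n : ℝ) ≤ p := by exact_mod_cast hpn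
    have c4 : (1 : ℝ) ≤ n := by exact_mod_cast hn
    have c5 : (1 : ℝ) ≤ e := by exact_mod_cast h3
    have c6 : (1 : ℝ) ≤ j := by exact_mod_cast h1
    have c7 : (2 : ℝ) ≤ p := by exact_mod_cast hp
    have c8 : α * j ≤ α * k := mul_le_mul_of_nonneg_left c1 hα.le
    have c9 : (0 : ℝ) < α * j := mul_pos hα (by linarith)
    have e1 : ((e : ℝ) + α * j) * n ≤ (e + α * j) * p :=
      mul_le_mul_of_nonneg_left c3 (by linarith)
    have e2 : ((e : ℝ) + α * j) * p ≤ (d + α * k) * p :=
      mul_le_mul_of_nonneg_right (by linarith) (by linarith)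
    have e3 : ((e : ℝ) + α * j) * n = (e + α * j) * p := by linarith
    have e4 : ((e : ℝ) + α * j) * p = (d + α * k) * p := by linarith
    have e5 : (n : ℝ) = p := mul_left_cancel₀ (by linarith : (e : ℝ) + α * j ≠ 0) e3
    have e6 : (e : ℝ) + α * j = d + α * k := mul_right_cancel₀ (by linarith : (p : ℝ) ≠ 0) e4
    have e7 : (e : ℝ) = d := by linarith
    have e8 : α * (j : ℝ) = α * k := by linarith
    have e9 : (j : ℝ) = k := mul_left_cancel₀ hα.ne' e8
    exact hne ⟨by exact_mod_cast e5.symm, by exact_mod_cast e7, by exact_mod_cast e9⟩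
  · have key := idB (n := n) (d := d) (k := k) h
    by_contra hc
    push Not at hc
    have hpos : p ≤ p * (n * p - k * (p + e - j) + (n * e - d * p)) := by nlinarith
    rw [key] at hpos
    have f1 : 0 ≤ p * d - e * n := by nlinarith
    have f2 : 0 ≤ p * k - j * n := by nlinarith
    rcases hpn.lt_or_eq with hlt | heq
    · have : 0 ≤ p * (p * d - e * n) := mul_nonneg (by linarith) f1
      have : 0 ≤ (p + e - j) * (p * k - j * n) := mul_nonneg (by linarith) f2
      linarith
    · subst heq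
      have g1 : n * (n * d - e * n) = n * n * (d - e) := by ring
      have g2 : (n + e - j) * (n * k - j * n) = n * ((n + e - j) * (k - j)) := by ring
      rw [g1, g2] at hpos
      have g3 : n * n * (d - e) + n * ((n + e - j) * (k - j)) ≤ 0 := by linarith
      have g4 : 0 ≤ (n + e - j) * (k - j) := mul_nonneg (by linarith) (by linarith)
      have g5 : 0 ≤ n * n * (d - e) := mul_nonneg (by nlinarith) (by linarith)
      have g6 : 0 ≤ n * ((n + e - j) * (k - j)) := mul_nonneg (by linarith) g4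
      have g7 : n * n * (d - e) = 0 := by linarith
      have g8 : n * ((n + e - j) * (k - j)) = 0 := by linarith
      have g9 : d - e = 0 := by
        rcases mul_eq_zero.1 g7 with h' | h'
        · nlinarith
        · exact h'
      have g10 : k - j = 0 := by
        rcases mul_eq_zero.1 g8 with h' | h'
        · linarith
        · rcases mul_eq_zero.1 h' with h' | h'
          · linarith
          · exact h'
      exact hne ⟨rfl, by linarith, by linarith⟩

/-- Exceptional types of degree slope at least that of `b`. -/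
lemma lemW {n d p e j : ℤ} (hp : 2 ≤ p) (hpn : p < n) (he : 0 ≤ e) (hj : 0 ≤ j)
    (h : j * (p + e - j) = p ^ 2 - 1) (hd : (n - 1) * (n - 2) ≤ d) (hD : p * d - e * n ≤ 0) :
    p = n - 1 ∧ (j = 1 ∨ p + e - j = 1) := by
  obtain ⟨h1, h2⟩ := real_pos hp he hj h
  have h3 := real_e_le hp he hj h
  have h4 : p * ((n - 1) * (n - 2)) ≤ e * n := by nlinarith
  have h5 : p * ((n - 1) * (n - 2)) ≤ p * ((p - 1) * n) := by nlinarith
  have h6 : (n - 1) * (n - 2) ≤ (p - 1) * n := le_of_mul_le_mul_left h5 (by linarith)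
  have h7 : p = n - 1 := by
    by_contra hne
    have : p ≤ n - 2 := by omega
    nlinarith
  subst h7
  refine ⟨rfl, ?_⟩
  by_contra hc
  push Not at hc
  obtain ⟨hc1, hc2⟩ := hc
  have g1 : 2 ≤ j := by omega
  have g2 : 2 ≤ n - 1 + e - j := by omega
  have g3 : 0 ≤ (j - 2) * (n - 1 + e - j - 2) := mul_nonneg (by linarith) (by linarith)
  have g4 : n * (n ^ 2 - 4 * n + 4) < n * e := by nlinarith
  have g5 : n ^ 2 - 4 * n + 4 < e := lt_of_mul_lt_mul_left g4 (by linarith)
  nlinarith

end CohP1.Closed
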