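import Pool.Agent.Lib_helper91.Coh.NumA

/-!
# Exceptional types of rank between `2` and `n - 1` do not bind
-/

namespace CohP1.Closed

/-- `D = K = 0` is impossible. -/
lemma not_prop {n d k p e j : ℤ} (hp : 2 ≤ p) (hpn : p < n)
    (h : j * (p + e - j) = p ^ 2 - 1) (hq : n ^ 2 - k * (n + d - k) ≤ 1)
    (hD : p * d - e * n = 0) (hK : p * k - j * n = 0) : False := by
  have h1 : p ^ 2 * (n ^ 2 - k * (n + d - k)) = n ^ 2 := by
    linear_combination (-n ^ 2) * h + (-(j * n)) * hD + (j * n - p * n - p * d + p * k) * hK
  nlinarith

/-- Case `e / p ≤ d / n`: sub side. -/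
lemma conclA {n d k p e j : ℤ} {α : ℝ} (hα : 0 < α) (hk : 1 ≤ k)
    (hp : 2 ≤ p) (hpn : p < n) (he : 0 ≤ e) (hj : 0 ≤ j)
    (h : j * (p + e - j) = p ^ 2 - 1) (hd : (n - 1) * (n - 2) ≤ d)
    (hq : n ^ 2 - k * (n + d - k) ≤ 1) (hjk : j ≤ k)
    (hA : ∀ a : ℤ, 0 ≤ a → a * n < n + d → (a : ℝ) * n < d + α * k)
    (hB : ∀ a : ℤ, 0 ≤ a → d < n * (a + 1) → (d : ℝ) + α * k < n * (a + α * (a + 1)))
    (hC' : ∀ a : ℤ, 0 ≤ a → e < (p - j) * (1 + a) → (e : ℝ) + α * j < p * a)
    (hle : ((d : ℝ) + α * k) * p ≤ (e + α * j) * n) :
    p * n - j * (n + d - k) + (p * d - e * n) ≤ 0 := by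
  obtain ⟨h1, h2⟩ := real_pos hp he hj h
  have key := idA (n := n) (d := d) (k := k) h
  by_contra hc
  push Not at hc
  have hpos : p ≤ p * (p * n - j * (n + d - k) + (p * d - e * n)) := by nlinarith
  rw [key] at hpos
  have hDK : ((p * d - e * n : ℤ) : ℝ) + α * ((p * k - j * n : ℤ) : ℝ) ≤ 0 := by
    push_cast; linarith
  rcases le_or_gt 0 (p * d - e * n) with hD | hD
  · -- D ≥ 0
    have hD' : (0 : ℝ) ≤ ((p * d - e * n : ℤ) : ℝ) := by exact_mod_cast hD
    rcases le_or_gt 0 (p * k - j * n) with hK | hK
    · have hK' : (0 : ℝ) ≤ ((p * k - j * n : ℤ) : ℝ) := by exact_mod_cast hK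
      have hK2 : 0 ≤ α * ((p * k - j * n : ℤ) : ℝ) := mul_nonneg hα.le hK'
      have hD3 : ((p * d - e * n : ℤ) : ℝ) = 0 := by linarith
      have hK3 : α * ((p * k - j * n : ℤ) : ℝ) = 0 := by linarith
      have hD4 : p * d - e * n = 0 := by exact_mod_cast hD3
      have hK4 : p * k - j * n = 0 := by
        rcases mul_eq_zero.1 hK3 with h' | h'
        · exact absurd h' hα.ne'
        · exact_mod_cast h'
      exact not_prop hp hpn h hq hD4 hK4
    · rcases lt_trichotomy j p with hjp | hjp | hjp
      · -- j < p
        have hmu : ((n - 2 : ℤ) : ℝ) * n < d + α * k := by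
          refine hA (n - 2) (by omega) ?_
          nlinarith
        push_cast at hmu
        have hp0 : (0 : ℝ) < p := by exact_mod_cast (by omega : (0 : ℤ) < p)
        have hn0 : (0 : ℝ) < n := by exact_mod_cast (by omega : (0 : ℤ) < n)
        have hc1 : ((n : ℝ) - 2) * p < e + α * j := by
          by_contra hcon
          push Not at hcon
          have e1 : (e + α * j) * n ≤ ((n : ℝ) - 2) * p * n := mul_le_mul_of_nonneg_right hcon hn0.le
          have e2 : ((n : ℝ) - 2) * n * p < (d + α * k) * p := mul_lt_mul_of_pos_right hmu hp0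
          linarith
        have hc2 : (p - j) * (n - 1) ≤ e := by
          by_contra hcon
          push Not at hcon
          have := hC' (n - 2) (by omega) (by
            have : (1 + (n - 2)) = n - 1 := by ring
            rw [this]; exact hcon)
          push_cast at this
          linarith
        have hc3' : 0 ≤ (j - 1) * (p - j - 1) :=
          mul_nonneg (by linarith) (by linarith)
        have hc3 : (p - 1) ≤ j * (p - j) := by linarith
        have hc4 : (p - j) * n ≤ p + e - j := by linarith
        have hc5 : j * ((p - j) * n) ≤ (p - 1) * (p + 1) := by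
          calc j * ((p - j) * n) ≤ j * (p + e - j) := mul_le_mul_of_nonneg_left hc4 (by linarith)
            _ = (p - 1) * (p + 1) := by rw [h]; ring
        have hc6 : (p - 1) * n ≤ (p - 1) * (p + 1) := by
          calc (p - 1) * n ≤ (j * (p - j)) * n := mul_le_mul_of_nonneg_right hc3 (by linarith)
            _ ≤ _ := by linarith
        have hc7 : n ≤ p + 1 := le_of_mul_le_mul_left hc6 (by linarith)
        have hc8 : p = n - 1 := by omega
        subst hc8
        have hc9 : (j * (n - 1 - j)) * n ≤ (n - 2) * n := by linarith
        have hc10 : j * (n - 1 - j) ≤ n - 2 := le_of_mul_le_mul_right hc9 (by linarith)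
        have hc11 : (j - 1) * (n - 1 - j - 1) = 0 := by
          apply le_antisymm
          · linarith
          · exact mul_nonneg (by linarith) (by linarith)
        rcases mul_eq_zero.1 hc11 with hj1 | hj1
        · -- j = 1
          have hj2 : j = 1 := by linarith
          subst hj2
          have hk1 : k = 1 := by
            by_contra hk1
            have : 2 ≤ k := by omega
            nlinarith
          subst hk1
          have he1 : e = (n - 1) * (n - 2) := by linarith
          have := hC' (n - 1) (by omega) (by rw [he1]; nlinarith)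
          push_cast at this hle
          have hd2 : (n : ℝ) * (n - 1) ≤ d := by
            have : n * (n - 1) ≤ d := by nlinarith
            exact_mod_cast this
          have e1 : ((e : ℝ) + α * 1) * n < (n - 1) * (n - 1) * n := by
            apply mul_lt_mul_of_pos_right _ hn0
            exact this
          have hnr : (0 : ℝ) < n - 1 := by
            have : (0 : ℤ) < n - 1 := by omega
            exact_mod_cast this
          have e2 : ((n : ℝ) * (n - 1)) * (n - 1) < ((d : ℝ) + α * 1) * (n - 1) := by
            apply mul_lt_mul_of_pos_right _ hnr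
            linarith
          linarith
        · -- j = n - 2
          have hj2 : j = n - 2 := by linarith
          subst hj2
          have he1 : e = n - 1 := by
            have : (n - 2) * (n - 1 + e - (n - 2)) = (n - 2) * n := by rw [h]; ring
            have := mul_left_cancel₀ (by omega : (n - 2 : ℤ) ≠ 0) this
            linarith
          subst he1
          have h3 := hC' (n - 1) (by omega) (by
            have : (n - 1 - (n - 2)) * (1 + (n - 1)) = n := by ring
            rw [this]; linarith)
          push_cast at h3
          have hn2 : (0 : ℝ) < n - 2 := by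
            have : (0 : ℤ) < n - 2 := by omega
            exact_mod_cast this
          have hα1 : α < n - 1 := by
            by_contra hcon
            push Not at hcon
            have := mul_le_mul_of_nonneg_right hcon hn2.le
            linarith
          have hK1 : (0 : ℝ) < -(((n - 1) * k - (n - 2) * n : ℤ) : ℝ) := by
            have : (n - 1) * k - (n - 2) * n < 0 := by linarith
            have : (((n - 1) * k - (n - 2) * n : ℤ) : ℝ) < 0 := by exact_mod_cast this
            linarith
          have e1 : α * (-(((n - 1) * k - (n - 2) * n : ℤ) : ℝ)) <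
              (n - 1) * (-(((n - 1) * k - (n - 2) * n : ℤ) : ℝ)) :=
            mul_lt_mul_of_pos_right hα1 hK1
          have e2 : (((n - 1) * d - (n - 1) * n : ℤ) : ℝ) <
              (n - 1) * (-(((n - 1) * k - (n - 2) * n : ℤ) : ℝ)) := by
            have := hDK
            push_cast at this e1 ⊢
            linarith
          have e3 : (n - 1) * d - (n - 1) * n < (n - 1) * (-((n - 1) * k - (n - 2) * n)) := by
            have : (((n - 1) * d - (n - 1) * n : ℤ) : ℝ) <
              (((n - 1) * (-((n - 1) * k - (n - 2) * n)) : ℤ) : ℝ) := by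
              push_cast at e2 ⊢; linarith
            exact_mod_cast this
          have e4 : (n - 1) * (d - n) < (n - 1) * (-((n - 1) * k - (n - 2) * n)) := by linarith
          have e5 : d - n < -((n - 1) * k - (n - 2) * n) := lt_of_mul_lt_mul_left e4 (by linarith)
          have e6 : (n - 1) * (n - 2) < (n - 1) * (n - k) := by linarith
          have e7 : n - 2 < n - k := lt_of_mul_lt_mul_left e6 (by linarith)
          have hk1 : k = 1 := by omega
          subst hk1
          nlinarith
      · -- j = p
        subst hjp
        have : j ∣ 1 := ⟨j - (j + e - j), by linarith⟩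
        have := Int.le_of_dvd one_pos this
        omega
      · -- j > p
        have hκ : 1 ≤ -(p * k - j * n) := by omega
        have g1 : j * 1 ≤ j * (-(p * k - j * n)) := mul_le_mul_of_nonneg_left hκ (by linarith)
        have g2 : 1 * (p * d - e * n) ≤ (j - p) * (p * d - e * n) :=
          mul_le_mul_of_nonneg_right (by linarith) hD
        have g3 : p * d - e * n ≤ n - p - j := by linarith
        have g4 : j ≤ n - p := by linarith
        have g5 : p + e - j ≤ p - 1 := by
          by_contra hcon
          push Not at hcon
          have : p ≤ p + e - j := by linarith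
          nlinarith
        have g6 : e ≤ n - 1 - p := by linarith
        have g7 : e * n ≤ (n - 1 - p) * n := mul_le_mul_of_nonneg_right g6 (by linarith)
        have g8 : p * d < n * (n - p) := by nlinarith
        have g9 : 2 * ((n - 1) * (n - 2)) ≤ p * d := by
          calc 2 * ((n - 1) * (n - 2)) ≤ p * ((n - 1) * (n - 2)) :=
                mul_le_mul_of_nonneg_right hp (mul_nonneg (by linarith) (by linarith))
            _ ≤ p * d := mul_le_mul_of_nonneg_left hd (by linarith)
        have g10 : n * (n - p) ≤ n * (n - 2) := mul_le_mul_of_nonneg_left (by linarith) (by linarith)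
        have g11 : (2 * (n - 1)) * (n - 2) < n * (n - 2) := by linarith
        have g12 : 2 * (n - 1) < n := lt_of_mul_lt_mul_right g11 (by linarith)
        linarith
  · -- D < 0
    obtain ⟨hpn1, hc12⟩ := lemW hp hpn he hj h hd hD.le
    subst hpn1
    have hn0 : (0 : ℝ) < n := by exact_mod_cast (by omega : (0 : ℤ) < n)
    rcases hc12 with hj1 | hm1
    · subst hj1
      have he1 : e = (n - 1) * (n - 2) := by linarith
      subst he1
      have ht1 : (n - 1) * d < (n - 1) * (n * (n - 2)) := by linarith
      have ht : d < n * (n - 2) := lt_of_mul_lt_mul_left ht1 (by linarith)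
      have hB1 := hB (n - 3) (by omega) (by
        have : n * (n - 3 + 1) = n * (n - 2) := by ring
        rw [this]; exact ht)
      push_cast at hB1
      -- χ(c,b) ≥ 1 : k ≥ (n-2) t + 1
      have hk2 : (n - 2) * (n * (n - 2) - d) + 1 ≤ k := by
        have : (n - 1) * ((n - 2) * (n * (n - 2) - d)) < (n - 1) * k := by linarith
        have := lt_of_mul_lt_mul_left this (by linarith)
        linarith
      have hd3 : n * (n - 2) - d ≤ n - 2 := by linarith
      push_cast at hDK
      -- real inequalities
      obtain ⟨t, ht'⟩ : ∃ t : ℝ, t = (n : ℝ) * (n - 2) - d := ⟨_, rfl⟩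
      have r1 : ((n : ℝ) - 2) * t + 1 ≤ k := by rw [ht']; exact_mod_cast hk2
      have r2 : t ≤ n - 2 := by rw [ht']; exact_mod_cast hd3
      have r3 : 1 ≤ t := by
        have : 1 ≤ n * (n - 2) - d := by omega
        rw [ht']; exact_mod_cast this
      have hdt : (d : ℝ) = n * (n - 2) - t := by rw [ht']; ring
      rw [hdt] at hB1 hDK
      -- hDK : (n-1)((n(n-2) - t)) - (n-1)(n-2) n + α((n-1)k - n) ≤ 0
      have r4 : α * ((n - 1) * k - n) ≤ (n - 1) * t := by linarith
      have r5 : n - t < α * (n * (n - 2) - k) := by linarith
      have hn3 : (3 : ℝ) ≤ n := by exact_mod_cast (by omega : (3 : ℤ) ≤ n)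
      have r60 : ((n : ℝ) - 2) * 1 ≤ (n - 2) * t := mul_le_mul_of_nonneg_left r3 (by linarith)
      have r61 : ((n : ℝ) - 1) * (n - 1) ≤ (n - 1) * k :=
        mul_le_mul_of_nonneg_left (by linarith) (by linarith)
      have r6 : (0 : ℝ) < (n - 1) * k - n := by nlinarith
      have r7 : (0 : ℝ) < n * (n - 2) - k := by
        by_contra hcon
        push Not at hcon
        have := mul_nonpos_of_nonneg_of_nonpos hα.le hcon
        linarith
      have r8 : (n - t) * ((n - 1) * k - n) < α * (n * (n - 2) - k) * ((n - 1) * k - n) :=
        mul_lt_mul_of_pos_right r5 r6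
      have r9 : α * ((n - 1) * k - n) * (n * (n - 2) - k) ≤ (n - 1) * t * (n * (n - 2) - k) :=
        mul_le_mul_of_nonneg_right r4 r7.le
      have r10 : (n - t) * ((n - 1) * k - n) < (n - 1) * t * (n * (n - 2) - k) := by linarith
      have r11 : (n - 1) * k * n < ((n - t) + (n - 1) * (n - 2) * t) * n := by linarith
      have r12 : ((n : ℝ) - 1) * k < (n - t) + (n - 1) * (n - 2) * t := lt_of_mul_lt_mul_right r11 hn0.le
      have r13 : ((n : ℝ) - 1) * ((n - 2) * t + 1) ≤ (n - 1) * k :=
        mul_le_mul_of_nonneg_left r1 (by linarith)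
      linarith
    · -- m' = 1
      have hj2 : j = n * (n - 2) := by rw [hm1] at h; linarith
      have ht1 : (n - 1) * d < (n - 1) * (n * (n - 2)) := by
        have he1 : e = (n - 1) * (n - 2) := by linarith
        rw [he1] at hD; linarith
      have ht : d < n * (n - 2) := lt_of_mul_lt_mul_left ht1 (by linarith)
      have hB1 := hB (n - 3) (by omega) (by
        have : n * (n - 3 + 1) = n * (n - 2) := by ring
        rw [this]; exact ht)
      push_cast at hB1
      have hkr : (n : ℝ) * (n - 2) ≤ k := by
        have : n * (n - 2) ≤ k := by rw [← hj2]; exact hjk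
        exact_mod_cast this
      have r1 : α * (n * (n - 2)) ≤ α * k := mul_le_mul_of_nonneg_left hkr hα.le
      have r2 : (d : ℝ) < n * (n - 3) := by linarith
      have r3 : ((n : ℝ) - 1) * (n - 2) ≤ d := by exact_mod_cast hd
      nlinarith

end CohP1.Closed
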